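import Pool.Agent.H54.VG.SCH

/-!
# VG, module ITR: iteration
-/

set_option autoImplicit false

namespace Pool.Agent.H54.VG

open Set MeasureTheory Pool.Agent.H95.VG

theorem nsq_le {n : ℕ} (z : V n) : nsq z ≤ n * ‖z‖ ^ 2 := by
  unfold nsq
  calc ∑ i, ‖z i‖ ^ 2 ≤ ∑ _i : Fin n, ‖z‖ ^ 2 := by
        apply Finset.sum_le_sum
        intro i _
        have := norm_le_pi_norm z i
        gcongr
    _ = n * ‖z‖ ^ 2 := by simp

theorem norm_sq_le_nsq {n : ℕ} (z : V n) : ‖z‖ ^ 2 ≤ nsq z := by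
  have h1 : ‖z‖ ≤ Real.sqrt (nsq z) := by
    rw [pi_norm_le_iff_of_nonneg (Real.sqrt_nonneg _)]
    intro i
    apply Real.le_sqrt_of_sq_le
    exact Finset.single_le_sum (f := fun i => ‖z i‖ ^ 2) (fun _ _ => by positivity)
      (Finset.mem_univ i)
  calc ‖z‖ ^ 2 ≤ (Real.sqrt (nsq z)) ^ 2 := by gcongr
    _ = nsq z := Real.sq_sqrt (nsq_nonneg z)

/-- ITR: exponential decay of the depth. -/
theorem itr (hS : T_SCH) : T_ITR := by
  intro n X f I η L₀ m₀ N hc
  have hn := one_le_of_meas hc.meas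
  obtain ⟨C, hC1, hsch⟩ := hS n X f I η L₀ m₀ N hc
  have hC0 : 0 < C := by linarith
  have hm0 : (0 : ℝ) < m₀ := by exact_mod_cast hc.pos.2
  have hn0 : (0 : ℝ) < n := by exact_mod_cast hn
  have hsn : 0 < Real.sqrt n := Real.sqrt_pos.2 hn0
  set ε : ℝ := (Real.exp (-1) / C) ^ m₀ / (2 * Real.sqrt n) with hε
  have hε0 : 0 < ε := by have := Real.exp_pos (-1); positivity
  obtain ⟨B, hB⟩ := hc.deep ε hε0
  obtain ⟨B', hB'⟩ := hc.up
  obtain ⟨L₁, hL₁, hL₁0, hN1⟩ := hc.unb (B + B')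
  refine ⟨L₁, hL₁0, hN1, ?_⟩
  have hL0 := hc.pos.1
  intro L k hL
  have hmemD : ∀ᵐ y ∂(volume.restrict (Dq n I)), y ∈ Dq n I := by
    apply ae_restrict_mem₀
    exact (isOpen_nsq_lt (n := n) (1 / 4)).measurableSet.nullMeasurableSet.congr
      (Dq_ae hn hc.inull).symm
  induction k with
  | zero =>
    apply Filter.Eventually.of_forall
    intro y z hz
    have h1 : nsq z < 1 / 4 := hz.1.2
    have h2 := norm_sq_le_nsq z
    simp only [Nat.cast_zero, neg_zero, Real.exp_zero]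
    nlinarith [norm_nonneg z]
  | succ k ih =>
    have hL' : L₀ ≤ L + k * L₁ := by
      have : 0 ≤ (k : ℝ) * L₁ := mul_nonneg (Nat.cast_nonneg _) (by linarith)
      linarith
    have h1 := hsch (L + k * L₁) (Real.exp (-k)) hL' (Real.exp_pos _).le ih
    have hZ := h1
    rw [restrict_Dq hn hc.inull, ae_restrict_iff' (isOpen_nsq_lt _).measurableSet, ae_iff] at hZ
    filter_upwards [hc.null _ hZ, hc.card L₁ hL₁0, hmemD] with y h2 h3 h4
    intro z hz
    have hne : (FL f I η L₁ y).Nonempty := by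
      rw [← Set.encard_ne_zero, h3]
      exact_mod_cast (by omega : N L₁ ≠ 0)
    obtain ⟨y', hy'D, hfy', hηy'⟩ := hne
    have h5 := h2 y' hy'D hfy'
    simp only [Set.mem_setOf_eq, not_not] at h5
    have hz' : z ∈ FL f I η (L + k * L₁) y' := by
      refine ⟨hz.1, ?_, ?_⟩
      · rw [hfy']; exact hz.2.1
      · rw [hηy', hz.2.2]
        push_cast
        ring
    have h6 := h5 hy'D.2 z hz'
    have hy'ε : ‖y'‖ ≤ ε := by
      apply hB y' hy'D
      rw [hηy']
      have := hB' y h4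
      linarith
    have h7 : 2 * Real.sqrt (nsq y') ≤ (Real.exp (-1) / C) ^ m₀ := by
      have h8 : Real.sqrt (nsq y') ≤ Real.sqrt n * ‖y'‖ := by
        apply Real.sqrt_le_iff.2
        refine ⟨by positivity, ?_⟩
        rw [mul_pow, Real.sq_sqrt hn0.le]
        exact nsq_le y'
      calc 2 * Real.sqrt (nsq y') ≤ 2 * (Real.sqrt n * ε) := by
            have : Real.sqrt n * ‖y'‖ ≤ Real.sqrt n * ε := by gcongr
            linarith
        _ = (Real.exp (-1) / C) ^ m₀ := by rw [hε]; field_simp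
    have h9 : (2 * Real.sqrt (nsq y')) ^ (1 / (m₀ : ℝ)) ≤ Real.exp (-1) / C := by
      calc (2 * Real.sqrt (nsq y')) ^ (1 / (m₀ : ℝ))
          ≤ ((Real.exp (-1) / C) ^ m₀) ^ (1 / (m₀ : ℝ)) := by
            apply Real.rpow_le_rpow (by positivity) h7 (by positivity)
        _ = Real.exp (-1) / C := by
            have he : 0 ≤ Real.exp (-1) / C := by have := Real.exp_pos (-1); positivity
            rw [← Real.rpow_natCast, ← Real.rpow_mul he, mul_one_div_cancel hm0.ne', Real.rpow_one]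
    calc ‖z‖ ≤ C * Real.exp (-k) * (2 * Real.sqrt (nsq y')) ^ (1 / (m₀ : ℝ)) := h6
      _ ≤ C * Real.exp (-k) * (Real.exp (-1) / C) := by gcongr
      _ = Real.exp (-k) * Real.exp (-1) := by field_simp
      _ = Real.exp (-((k + 1 : ℕ) : ℝ)) := by
        rw [← Real.exp_add]; congr 1; push_cast; ring

end Pool.Agent.H54.VG
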