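import Pool.Agent.H54.VG.JENb

/-!
# VG, module JEN: quantitative Jensen inequality
-/

set_option autoImplicit false

open MeasureTheory Set Filter Topology Metric
open scoped ENNReal NNReal ContDiff ComplexConjugate

namespace Pool.Agent.H54.VG

open Pool.Agent.H95.VG

variable {n : ℕ} {κ Kp : V n → ℝ}

lemma lev_cont {g : V n → ℝ} {O : Set (V n)} (hO : IsOpen O) (hg : ContDiffOn ℝ ∞ g O) (v : V n) :
    ContinuousOn (fun x => lev g x v) O := by
  have h1 : ∀ w, ContDiffOn ℝ ∞ (fun x => fderiv ℝ g x w) O := fun w =>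
    (hg.fderiv_of_isOpen hO (by simp)).clm_apply contDiffOn_const
  have h2 : ∀ w, ContinuousOn (fun x => fderiv ℝ (fun x => fderiv ℝ g x w) x w) O := fun w =>
    ((h1 w).continuousOn_fderiv_of_isOpen hO (by simp)).clm_apply continuousOn_const
  have h3 := ContinuousOn.const_smul ((h2 v).add (h2 (Complex.I • v))) (4 : ℝ)⁻¹
  exact h3

lemma lev_congr {g h : V n → ℝ} {O : Set (V n)} (hO : IsOpen O) (hgh : ∀ x ∈ O, g x = h x)
    {x : V n} (hx : x ∈ O) (v : V n) : lev g x v = lev h x v := by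
  have h1 : ∀ z ∈ O, fderiv ℝ g z = fderiv ℝ h z := by
    intro z hz
    apply Filter.EventuallyEq.fderiv_eq
    filter_upwards [hO.mem_nhds hz] with w hw using hgh w hw
  have h2 : ∀ w : V n, fderiv ℝ (fun z => fderiv ℝ g z w) x = fderiv ℝ (fun z => fderiv ℝ h z w) x := by
    intro w
    apply Filter.EventuallyEq.fderiv_eq
    filter_upwards [hO.mem_nhds hx] with z hz
    rw [h1 z hz]
  unfold lev
  rw [h2, h2]

/-- JEN: quantitative Jensen inequality at a zero. -/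
theorem jen (hKER : T_KER) (hZER : T_ZER) (hLGG : T_LGG) : T_JEN := by
  classical
  intro n hn
  obtain ⟨κ, Kp, hK⟩ := hKER n hn
  obtain ⟨M, hM, -, hM2⟩ := ker_bdd hK
  have hl2 : 0 < Real.log 2 := Real.log_pos (by norm_num)
  refine ⟨Real.log 2 / (16 * M), by positivity, fun y ρ R q hρ hρR hq hqy hne => ?_⟩
  have h2ρ : 0 < 2 * ρ := by positivity
  have hR : 0 < R := by linarith
  have hcb : closedBall y (2 * ρ) ⊆ ball y R := closedBall_subset_ball hρR
  -- replace `q` by a measurable function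
  obtain ⟨p, hpm, hpq⟩ : ∃ p : V n → ℂ, Measurable p ∧ ∀ x ∈ ball y R, p x = q x := by
    refine ⟨(ball y R).piecewise q (fun _ => 0), ?_, fun x hx => piecewise_eq_of_mem _ _ _ hx⟩
    exact ContinuousOn.measurable_piecewise hq.continuousOn continuousOn_const measurableSet_ball
  have hpd : DifferentiableOn ℂ p (ball y R) := hq.congr hpq
  have hpy : p y = 0 := by rw [hpq y (mem_ball_self hR), hqy]
  have hpne : ∃ x ∈ ball y R, p x ≠ 0 := by
    obtain ⟨x, hx, hx2⟩ := hne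
    exact ⟨x, hx, by rwa [hpq x hx]⟩
  have hlev : ∀ δ : ℝ, ∀ x ∈ ball y R, ∀ v,
      lev (fun x => Real.log (‖q x‖ ^ 2 + δ ^ 2) / 2) x v = lev (gd p δ) x v := by
    intro δ x hx v
    apply lev_congr isOpen_ball _ hx
    intro z hz
    rw [gd, hpq z hz]
  obtain ⟨hi2, hi1, hlim⟩ := jen_lim hZER hLGG hK hρ hρR hpd hpm hpy hpne
  -- upper bound
  obtain ⟨hg1, -⟩ := gd_facts hLGG isOpen_ball hpd one_pos
  obtain ⟨B, hB0, hB⟩ : ∃ B : ℝ, 0 ≤ B ∧ ∀ x ∈ closedBall y (2 * ρ), gd p 1 x ≤ B := by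
    obtain ⟨B, hB⟩ := ((isCompact_closedBall y (2 * ρ)).image_of_continuousOn
      (hg1.continuousOn.mono hcb)).bddAbove
    exact ⟨max B 0, le_max_right _ _, fun x hx => (hB ⟨x, hx, rfl⟩).trans (le_max_left _ _)⟩
  -- almost every point
  have hnull : ∀ s : ℝ, 0 < s → s ≤ 2 * ρ → ∀ᵐ ζ : V n, p (y + s • ζ) ≠ 0 ∨ 1 ≤ nsq ζ := by
    intro s hs hs2
    have h1 := hZER n y R p hpd hpne
    have h2 : volume ((fun ζ : V n => s • ζ) ⁻¹' ((fun x : V n => y + x) ⁻¹'
        {z ∈ ball y R | p z = 0})) = 0 := by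
      rw [Measure.addHaar_preimage_smul _ hs.ne', measure_preimage_add, h1, mul_zero]
    rw [ae_iff]
    apply measure_mono_null _ h2
    intro ζ hζ
    simp only [ne_eq, not_or, not_not, not_le, mem_ofPred_eq] at hζ
    exact ⟨hcb (pt_mem hs.le hs2 hζ.2), hζ.1⟩
  have habs : ∀ δ : ℝ, 0 < δ → δ ≤ 1 → ∀ x ∈ closedBall y (2 * ρ), p x ≠ 0 →
      |gd p δ x| ≤ |Real.log ‖p x‖| + B := by
    intro δ h0 h1 x hx hx2
    have h3 := log_le_gd (δ := δ) x hx2
    have h4 := (gd_mono h0 h1 x).trans (hB x hx)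
    have h5 := neg_abs_le (Real.log ‖p x‖)
    have h6 := abs_nonneg (Real.log ‖p x‖)
    rw [abs_le]
    constructor <;> linarith
  have hT : Tendsto (fun δ : ℝ => ∫ ζ, κ ζ * (gd p δ (y + (2 * ρ) • ζ) - gd p δ (y + ρ • ζ)))
      (𝓝[>] 0) (𝓝 (∫ ζ, κ ζ * (Real.log ‖p (y + (2 * ρ) • ζ)‖ - Real.log ‖p (y + ρ • ζ)‖))) := by
    apply tendsto_integral_filter_of_dominated_convergence (fun ζ =>
      |κ ζ * Real.log ‖p (y + (2 * ρ) • ζ)‖| + |κ ζ * Real.log ‖p (y + ρ • ζ)‖| + κ ζ * (2 * B))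
    · refine Eventually.of_forall fun δ => ?_
      have hm := gd_measurable hpm δ
      exact (hK.smooth.1.continuous.measurable.mul
        ((hm.comp (by fun_prop)).sub (hm.comp (by fun_prop)))).aestronglyMeasurable
    · have hev : ∀ᶠ δ : ℝ in 𝓝[>] 0, δ ∈ Ioo (0 : ℝ) 1 := Ioo_mem_nhdsGT one_pos
      filter_upwards [hev] with δ hδ
      filter_upwards [hnull (2 * ρ) h2ρ le_rfl, hnull ρ hρ (by linarith)] with ζ h1 h2
      have hκ := (ker_nonneg hK ζ).1
      rw [abs_mul, abs_mul, abs_of_nonneg hκ, norm_mul, Real.norm_of_nonneg hκ, ← mul_add,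
        ← mul_add]
      rcases lt_or_ge (nsq ζ) 1 with h | h
      · apply mul_le_mul_of_nonneg_left _ hκ
        have e1 := habs δ hδ.1 hδ.2.le _ (pt_mem h2ρ.le le_rfl h)
          (h1.resolve_right (not_le.2 h))
        have e2 := habs δ hδ.1 hδ.2.le _ (pt_mem hρ.le (by linarith) h)
          (h2.resolve_right (not_le.2 h))
        rw [Real.norm_eq_abs]
        have e3 := abs_sub (gd p δ (y + (2 * ρ) • ζ)) (gd p δ (y + ρ • ζ))
        linarith
      · rw [(hK.zero ζ h).1]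
        simp
    · exact (hi2.abs.add hi1.abs).add ((ker_int hK).mul_const _)
    · filter_upwards [hnull (2 * ρ) h2ρ le_rfl, hnull ρ hρ (by linarith)] with ζ h1 h2
      rcases lt_or_ge (nsq ζ) 1 with h | h
      · apply Tendsto.const_mul
        exact ((gd_tendsto _ (h1.resolve_right (not_le.2 h))).mono_left nhdsWithin_le_nhds).sub
          ((gd_tendsto _ (h2.resolve_right (not_le.2 h))).mono_left nhdsWithin_le_nhds)
      · rw [(hK.zero ζ h).1]
        simp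
  have hev : ∀ᶠ δ : ℝ in 𝓝[>] 0, Real.log 2 / 2 <
      ∫ ζ, κ ζ * (gd p δ (y + (2 * ρ) • ζ) - gd p δ (y + ρ • ζ)) :=
    hT.eventually (lt_mem_nhds (by linarith))
  obtain ⟨δ₀, hδ₀, hsub⟩ := mem_nhdsGT_iff_exists_Ioo_subset.1 hev
  refine ⟨δ₀, hδ₀, fun δ h0 h1 => ?_⟩
  have h2 : Real.log 2 / 2 < ∫ ζ, κ ζ * (gd p δ (y + (2 * ρ) • ζ) - gd p δ (y + ρ • ζ)) :=
    hsub ⟨h0, h1⟩
  obtain ⟨hg, hp⟩ := gd_facts hLGG isOpen_ball hpd h0
  have h3 := rep_le hK hn hM2 hρ hρR hg hp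
    (continuousOn_finsetSum _ fun k _ => lev_cont isOpen_ball hg (ek k))
  have h4 : ∫ x in ball y (2 * ρ), ∑ k, lev (fun x => Real.log (‖q x‖ ^ 2 + δ ^ 2) / 2) x (ek k) =
      ∫ x in ball y (2 * ρ), ∑ k, lev (gd p δ) x (ek k) := by
    apply setIntegral_congr_fun measurableSet_ball
    intro x hx
    exact Finset.sum_congr rfl fun k _ => hlev δ x (hcb (ball_subset_closedBall hx)) _
  rw [h4]
  have h5 : 0 < ρ ^ (2 * n - 2) := by positivity
  have h6 : Real.log 2 / 2 * ρ ^ (2 * n - 2) ≤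
      8 * M * ∫ x in ball y (2 * ρ), ∑ k, lev (gd p δ) x (ek k) :=
    le_trans (mul_le_mul_of_nonneg_right h2.le h5.le) h3
  have h7 : Real.log 2 / (16 * M) * ρ ^ (2 * n - 2) =
      (Real.log 2 / 2 * ρ ^ (2 * n - 2)) / (8 * M) := by
    field_simp
    ring
  rw [h7, div_le_iff₀ (by positivity)]
  linarith

end Pool.Agent.H54.VG
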