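import Pool.Agent.H95.VG.Targets3

/-!
# VG, module SCW: Schwarz lemma on the ball
-/

set_option autoImplicit false

namespace Pool.Agent.H54.VG

open Set MeasureTheory Pool.Agent.H95.VG

theorem nsq_nonneg {n : ℕ} (z : V n) : 0 ≤ nsq z := Finset.sum_nonneg fun _ _ => by positivity

theorem nsq_smul {n : ℕ} (c : ℂ) (z : V n) : nsq (c • z) = ‖c‖ ^ 2 * nsq z := by
  unfold nsq
  rw [Finset.mul_sum]
  apply Finset.sum_congr rfl
  intro i _
  rw [Pi.smul_apply, smul_eq_mul, norm_mul, mul_pow]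

theorem nsq_eq_zero {n : ℕ} {z : V n} (h : nsq z = 0) : z = 0 := by
  unfold nsq at h
  rw [Finset.sum_eq_zero_iff_of_nonneg (fun _ _ => by positivity)] at h
  funext i
  have := h i (Finset.mem_univ _)
  simpa using this

theorem continuous_nsq {n : ℕ} : Continuous (nsq : V n → ℝ) := by
  unfold nsq
  fun_prop

theorem isOpen_nsq_lt {n : ℕ} (c : ℝ) : IsOpen {z : V n | nsq z < c} :=
  isOpen_lt continuous_nsq continuous_const

/-- an a.e. bound of a continuous function on an open set holds everywhere -/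
theorem le_of_ae {n : ℕ} {U : Set (V n)} (hU : IsOpen U) {P : V n → ℂ} {M : ℝ}
    (hP : ContinuousOn P U) (h : ∀ᵐ z ∂(volume.restrict U), ‖P z‖ ≤ M) :
    ∀ z ∈ U, ‖P z‖ ≤ M := by
  by_contra hc
  push Not at hc
  obtain ⟨z, hz, hzM⟩ := hc
  have hO : IsOpen (U ∩ (fun z => ‖P z‖) ⁻¹' Ioi M) :=
    (hP.norm).isOpen_inter_preimage hU isOpen_Ioi
  have hpos : 0 < volume (U ∩ (fun z => ‖P z‖) ⁻¹' Ioi M) := hO.measure_pos _ ⟨z, hz, hzM⟩
  rw [ae_restrict_iff' hU.measurableSet, ae_iff] at h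
  apply hpos.ne'
  apply measure_mono_null _ h
  rintro x ⟨hx1, hx2⟩ hx3
  exact absurd (hx3 hx1) (not_le.2 hx2)

/-- SCW: Schwarz lemma on the ball. -/
theorem scw : T_SCW := by
  intro n P M hP hP0 hM hae z hz
  have hb : ∀ z, nsq z < 1 / 4 → ‖P z‖ ≤ M :=
    le_of_ae (isOpen_nsq_lt _) hP.continuousOn hae
  rcases (nsq_nonneg z).eq_or_lt with h0 | h0
  · rw [nsq_eq_zero h0.symm, hP0, norm_zero]
    positivity
  set r := Real.sqrt (nsq z) with hr
  have hr0 : 0 < r := Real.sqrt_pos.2 h0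
  have hr2 : r ^ 2 = nsq z := Real.sq_sqrt (nsq_nonneg z)
  have hr1 : 2 * r < 1 := by
    have : (2 * r) ^ 2 < 1 := by rw [mul_pow, hr2]; linarith
    nlinarith
  set R : ℝ := 1 / (2 * r) with hR
  have hRp : 0 < R := by positivity
  have hR1 : 1 < R := by rw [hR, lt_div_iff₀ (by positivity)]; linarith
  have hmem : ∀ ζ ∈ Metric.ball (0 : ℂ) R, nsq (ζ • z) < 1 / 4 := by
    intro ζ hζ
    rw [mem_ball_zero_iff] at hζ
    rw [nsq_smul, ← hr2, ← mul_pow]
    have h1 : ‖ζ‖ * r < 1 / 2 := by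
      calc ‖ζ‖ * r < R * r := mul_lt_mul_of_pos_right hζ hr0
        _ = 1 / 2 := by rw [hR]; field_simp
    have h2 : 0 ≤ ‖ζ‖ * r := by positivity
    nlinarith
  have hd : DifferentiableOn ℂ (fun ζ : ℂ => P (ζ • z)) (Metric.ball 0 R) := by
    apply hP.comp (t := {z | nsq z < 1 / 4})
    · fun_prop
    · intro ζ hζ
      exact hmem ζ hζ
  have hmaps : MapsTo (fun ζ : ℂ => P (ζ • z)) (Metric.ball 0 R)
      (Metric.closedBall ((fun ζ : ℂ => P (ζ • z)) 0) M) := by
    intro ζ hζ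
    simp only [zero_smul, hP0]
    rw [mem_closedBall_zero_iff]
    exact hb _ (hmem ζ hζ)
  have h1 : (1 : ℂ) ∈ Metric.ball (0 : ℂ) R := by
    rw [mem_ball_zero_iff, norm_one]; exact hR1
  have h2 := Complex.dist_le_div_mul_dist_of_mapsTo_ball hd hmaps h1
  simp only [zero_smul, one_smul, hP0, dist_zero_right, norm_one, mul_one] at h2
  refine h2.trans (le_of_eq ?_)
  rw [hR]
  field_simp

end Pool.Agent.H54.VG
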