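import Pool.Agent.H95.VG.Targets2
import Pool.Agent.H95.VG.Targets3
import Pool.Agent.H95.VG.Targets5
import Pool.Agent.H54.VG.SCW

/-!
# VG, module JEN, part a: preliminaries, integrability of `log |q|`
-/

set_option autoImplicit false

open MeasureTheory Set Filter Topology Metric
open scoped ENNReal NNReal ContDiff ComplexConjugate

namespace Pool.Agent.H54.VG

open Pool.Agent.H95.VG

/-! ### One variable -/

section one
open MeromorphicOn (divisor)

/-- the growth of circle averages of `log |u|` when `u` vanishes at the centre -/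
theorem jensen_step {u : ℂ → ℂ} {ρ : ℝ} (hρ : 0 < ρ)
    (hu : AnalyticOnNhd ℂ u (closedBall 0 (2 * ρ))) (h0 : u 0 = 0)
    (hne : ∃ τ ∈ closedBall (0 : ℂ) (2 * ρ), u τ ≠ 0) :
    Real.log 2 ≤ Real.circleAverage (fun τ => Real.log ‖u τ‖) 0 (2 * ρ) -
      Real.circleAverage (fun τ => Real.log ‖u τ‖) 0 ρ := by
  have h2ρ : 0 < 2 * ρ := by positivity
  have hsub : closedBall (0 : ℂ) ρ ⊆ closedBall 0 (2 * ρ) := closedBall_subset_closedBall (by linarith)
  have hm2 : MeromorphicOn u (closedBall 0 |2 * ρ|) := by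
    rw [abs_of_pos h2ρ]; exact hu.meromorphicOn
  have hm1 : MeromorphicOn u (closedBall 0 |ρ|) := by
    rw [abs_of_pos hρ]; exact (hu.mono hsub).meromorphicOn
  rw [MeromorphicOn.circleAverage_log_norm h2ρ.ne' hm2,
    MeromorphicOn.circleAverage_log_norm hρ.ne' hm1]
  rw [abs_of_pos h2ρ] at hm2 ⊢
  rw [abs_of_pos hρ] at hm1 ⊢
  set D2 := divisor u (closedBall (0 : ℂ) (2 * ρ)) with hD2
  set D1 := divisor u (closedBall (0 : ℂ) ρ) with hD1
  have hD2nn : ∀ z, 0 ≤ D2 z := fun z => (MeromorphicOn.AnalyticOnNhd.divisor_nonneg hu) z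
  have hD1in : ∀ z ∈ closedBall (0 : ℂ) ρ, D1 z = D2 z := by
    intro z hz
    rw [hD1, hD2, MeromorphicOn.divisor_apply hm1 hz, MeromorphicOn.divisor_apply hm2 (hsub hz)]
  have hD1out : ∀ z ∉ closedBall (0 : ℂ) ρ, D1 z = 0 := by
    intro z hz
    exact D1.apply_eq_zero_of_notMem hz
  have hD2out : ∀ z ∉ closedBall (0 : ℂ) (2 * ρ), D2 z = 0 := by
    intro z hz
    exact D2.apply_eq_zero_of_notMem hz
  have hfin : D2.support.Finite := D2.finiteSupport (isCompact_closedBall _ _)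
  have hs2 : ∑ᶠ z, (D2 z : ℝ) * Real.log (2 * ρ * ‖(0 : ℂ) - z‖⁻¹) =
      ∑ z ∈ hfin.toFinset, (D2 z : ℝ) * Real.log (2 * ρ * ‖(0 : ℂ) - z‖⁻¹) := by
    apply finsum_eq_sum_of_support_subset
    intro z hz
    simp only [Function.mem_support, ne_eq, mul_eq_zero, not_or] at hz
    simp only [Finite.coe_toFinset, Function.mem_support]
    exact_mod_cast hz.1
  have hs1 : ∑ᶠ z, (D1 z : ℝ) * Real.log (ρ * ‖(0 : ℂ) - z‖⁻¹) =
      ∑ z ∈ hfin.toFinset, (D1 z : ℝ) * Real.log (ρ * ‖(0 : ℂ) - z‖⁻¹) := by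
    apply finsum_eq_sum_of_support_subset
    intro z hz
    simp only [Function.mem_support, ne_eq, mul_eq_zero, not_or] at hz
    simp only [Finite.coe_toFinset, Function.mem_support]
    have h1 : D1 z ≠ 0 := by exact_mod_cast hz.1
    by_cases hz2 : z ∈ closedBall (0 : ℂ) ρ
    · rwa [hD1in z hz2] at h1
    · exact absurd (hD1out z hz2) h1
  rw [hs2, hs1]
  have hle : ∑ z ∈ hfin.toFinset, (D1 z : ℝ) * Real.log (ρ * ‖(0 : ℂ) - z‖⁻¹) ≤
      ∑ z ∈ hfin.toFinset, (D2 z : ℝ) * Real.log (2 * ρ * ‖(0 : ℂ) - z‖⁻¹) := by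
    apply Finset.sum_le_sum
    intro z _
    have hnn : (0 : ℝ) ≤ D2 z := by exact_mod_cast hD2nn z
    by_cases hz0 : z = 0
    · simp [hz0]
    have hzn : 0 < ‖(0 : ℂ) - z‖ := by
      rw [norm_pos_iff]
      simpa using hz0
    by_cases hz1 : z ∈ closedBall (0 : ℂ) ρ
    · rw [hD1in z hz1]
      apply mul_le_mul_of_nonneg_left _ hnn
      apply Real.log_le_log (by positivity)
      gcongr
      linarith
    · rw [hD1out z hz1]
      simp only [Int.cast_zero, zero_mul]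
      by_cases hz2 : z ∈ closedBall (0 : ℂ) (2 * ρ)
      · apply mul_nonneg hnn
        apply Real.log_nonneg
        rw [← div_eq_mul_inv, one_le_div hzn]
        simpa using hz2
      · rw [hD2out z hz2]
        simp
  have hc0 : (0 : ℂ) ∈ closedBall (0 : ℂ) ρ := by simp [hρ.le]
  have hc02 : (0 : ℂ) ∈ closedBall (0 : ℂ) (2 * ρ) := hsub hc0
  have hone : (1 : ℝ) ≤ D2 0 := by
    have h1 : 1 ≤ D2 0 := by
      rw [hD2, MeromorphicOn.AnalyticOnNhd.divisor_apply hu hc02]
      have htop : analyticOrderAt u 0 ≠ ⊤ := by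
        intro htop
        rw [analyticOrderAt_eq_top] at htop
        obtain ⟨τ, hτ, hτ2⟩ := hne
        apply hτ2
        exact hu.eqOn_zero_of_preconnected_of_eventuallyEq_zero
          (convex_closedBall _ _).isPreconnected hc02 htop hτ
      have hz : analyticOrderAt u 0 ≠ 0 := by
        rw [Ne, (hu 0 hc02).analyticOrderAt_eq_zero, not_not]
        exact h0
      obtain ⟨m, hm⟩ := ENat.ne_top_iff_exists.1 htop
      rw [← hm] at hz ⊢
      have hm1 : m ≠ 0 := by
        rintro rfl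
        exact hz rfl
      simp only [ENat.map_natCast, WithTop.untop₀_coe]
      omega
    exact_mod_cast h1
  rw [hD1in 0 hc0]
  have hlog : Real.log (2 * ρ) = Real.log 2 + Real.log ρ :=
    Real.log_mul (by norm_num) hρ.ne'
  rw [hlog]
  have hl2 : 0 ≤ Real.log 2 := Real.log_nonneg (by norm_num)
  nlinarith

end one

/-! ### Preliminaries -/

variable {n : ℕ} {κ Kp : V n → ℝ}

/-- multiplication by a unimodular number preserves Lebesgue measure (helper65, `H65/VG/WHLb`) -/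
lemma mp_rot (c : ℂ) (hc : ‖c‖ = 1) : MeasurePreserving (fun t : V n => c • t) volume volume := by
  set L : V n →ₗ[ℝ] V n := (c • (LinearMap.id : V n →ₗ[ℂ] V n)).restrictScalars ℝ with hL
  have hdet : LinearMap.det L = 1 := by
    rw [hL, LinearMap.det_restrictScalars, Algebra.norm_complex_apply, Complex.normSq_eq_norm_sq,
      LinearMap.det_smul, LinearMap.det_id, mul_one, norm_pow, hc]
    simp
  have hcont : Continuous (fun t : V n => c • t) := by fun_prop
  refine ⟨hcont.measurable, ?_⟩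
  have h1 := Measure.map_linearMap_addHaar_eq_smul_addHaar (μ := (volume : Measure (V n)))
    (f := L) (by rw [hdet]; exact one_ne_zero)
  rw [hdet] at h1
  have h2 : (⇑L : V n → V n) = fun t => c • t := rfl
  rw [h2] at h1
  rw [h1]
  simp

/-- regularised logarithm -/
noncomputable def gd (q : V n → ℂ) (δ : ℝ) (x : V n) : ℝ := Real.log (‖q x‖ ^ 2 + δ ^ 2) / 2

lemma gd_facts (hLGG : T_LGG) {O : Set (V n)} (hO : IsOpen O) {q : V n → ℂ}
    (hq : DifferentiableOn ℂ q O) {δ : ℝ} (hδ : 0 < δ) :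
    ContDiffOn ℝ ∞ (gd q δ) O ∧ ∀ z ∈ O, ∀ v, 0 ≤ lev (gd q δ) z v := by
  set G : V n → V 2 := fun x => ![q x, (δ : ℂ)] with hG
  have hGd : DifferentiableOn ℂ G O := by
    rw [differentiableOn_pi]
    intro i
    fin_cases i
    · simpa [hG] using hq
    · simp [hG]
  have h1 : ∀ x, nsq (G x) = ‖q x‖ ^ 2 + δ ^ 2 := by
    intro x
    simp [nsq, hG, Fin.sum_univ_two]
  have h2 : ∀ x, G x ≠ 0 := by
    intro x h
    have h3 := congrFun h 1
    simp [hG] at h3
    exact hδ.ne' h3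
  have h3 : (fun z => Real.log (nsq (G z)) / 2) = gd q δ := by
    funext x
    rw [h1]
    rfl
  obtain ⟨h4, h5⟩ := hLGG n 2 O G hO hGd
  rw [h3] at h4 h5
  have h6 : O ∩ {z | G z ≠ 0} = O := by
    ext z
    exact ⟨fun h => h.1, fun h => ⟨h, h2 z⟩⟩
  rw [h6] at h4
  exact ⟨h4, fun z hz v => h5 z hz (h2 z) v⟩

lemma gd_measurable {q : V n → ℂ} (hq : Measurable q) (δ : ℝ) : Measurable (gd q δ) := by
  unfold gd
  exact (Real.measurable_log.comp ((hq.norm.pow_const 2).add_const _)).div_const 2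

lemma log_le_gd {q : V n → ℂ} {δ : ℝ} (x : V n) (hx : q x ≠ 0) :
    Real.log ‖q x‖ ≤ gd q δ x := by
  unfold gd
  have h0 : 0 < ‖q x‖ := norm_pos_iff.2 hx
  have h1 : Real.log (‖q x‖ ^ 2) ≤ Real.log (‖q x‖ ^ 2 + δ ^ 2) :=
    Real.log_le_log (by positivity) (by nlinarith [sq_nonneg δ])
  rw [Real.log_pow] at h1
  push_cast at h1
  linarith

lemma gd_mono {q : V n → ℂ} {δ : ℝ} (h0 : 0 < δ) (h1 : δ ≤ 1) (x : V n) :
    gd q δ x ≤ gd q 1 x := by
  unfold gd
  exact div_le_div_of_nonneg_right (Real.log_le_log (by positivity) (by nlinarith)) (by norm_num)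

lemma gd_tendsto {q : V n → ℂ} (x : V n) (hx : q x ≠ 0) :
    Tendsto (fun δ : ℝ => gd q δ x) (𝓝 0) (𝓝 (Real.log ‖q x‖)) := by
  have h0 : 0 < ‖q x‖ := norm_pos_iff.2 hx
  have h1 : ContinuousAt (fun δ : ℝ => gd q δ x) 0 := by
    unfold gd
    apply ContinuousAt.div_const
    apply ContinuousAt.log (by fun_prop)
    positivity
  have h2 : gd q 0 x = Real.log ‖q x‖ := by
    unfold gd
    rw [zero_pow (by norm_num), add_zero, Real.log_pow]
    push_cast
    ring
  rw [← h2]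
  exact h1

lemma ker_nonneg (hK : Ker n κ Kp) (ζ : V n) : 0 ≤ κ ζ ∧ 0 ≤ Kp ζ := by
  rcases lt_or_ge (nsq ζ) 1 with h | h
  · exact ⟨(hK.pos ζ h).1.le, (hK.pos ζ h).2.le⟩
  · rw [(hK.zero ζ h).1, (hK.zero ζ h).2]
    exact ⟨le_rfl, le_rfl⟩

lemma norm_lt_of_nsq {ζ : V n} {r : ℝ} (hr : 0 < r) (h : nsq ζ < r ^ 2) : ‖ζ‖ < r := by
  rw [pi_norm_lt_iff hr]
  intro i
  have h1 : ‖ζ i‖ ^ 2 ≤ nsq ζ :=
    Finset.single_le_sum (f := fun i => ‖ζ i‖ ^ 2) (fun i _ => by positivity) (Finset.mem_univ i)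
  exact lt_of_pow_lt_pow_left₀ 2 hr.le (lt_of_le_of_lt h1 h)

lemma nsq_rsmul (r : ℝ) (z : V n) : nsq (r • z) = r ^ 2 * nsq z := by
  have h := nsq_smul (r : ℂ) z
  rw [Complex.norm_real, Real.norm_eq_abs, sq_abs] at h
  rw [← h]
  rfl

lemma compact_nsq (r : ℝ) : IsCompact {z : V n | nsq z ≤ r} := by
  refine Metric.isCompact_of_isClosed_isBounded (isClosed_le continuous_nsq continuous_const) ?_
  refine (Metric.isBounded_closedBall (x := (0 : V n)) (r := |r| + 1)).subset fun z hz => ?_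
  rw [mem_closedBall_zero_iff]
  have h1 : nsq z ≤ r := hz
  have h2 := le_abs_self r
  exact (norm_lt_of_nsq (by positivity) (by nlinarith [abs_nonneg r])).le

lemma ker_cs (hK : Ker n κ Kp) : HasCompactSupport κ ∧ HasCompactSupport Kp := by
  constructor <;> refine HasCompactSupport.intro (compact_nsq (n := n) 1) fun x hx => ?_
  · have : ¬ nsq x ≤ 1 := hx
    exact (hK.zero x (by linarith)).1
  · have : ¬ nsq x ≤ 1 := hx
    exact (hK.zero x (by linarith)).2

lemma ker_int (hK : Ker n κ Kp) : Integrable κ :=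
  hK.smooth.1.continuous.integrable_of_hasCompactSupport (ker_cs hK).1

lemma int_ker (hK : Ker n κ Kp) {F : V n → ℝ} (hF : Measurable F) {B : ℝ}
    (hB : ∀ ζ, nsq ζ < 1 → |F ζ| ≤ B) : Integrable (fun ζ => κ ζ * F ζ) := by
  refine ((ker_int hK).mul_const B).mono'
    (hK.smooth.1.continuous.measurable.mul hF).aestronglyMeasurable (ae_of_all _ fun ζ => ?_)
  rw [norm_mul, Real.norm_eq_abs, Real.norm_eq_abs, abs_of_nonneg (ker_nonneg hK ζ).1]
  rcases lt_or_ge (nsq ζ) 1 with h | h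
  · exact mul_le_mul_of_nonneg_left (hB ζ h) (ker_nonneg hK ζ).1
  · rw [(hK.zero ζ h).1]
    simp

lemma pt_mem {x ζ : V n} {r s : ℝ} (hs : 0 ≤ s) (hsr : s ≤ r) (h : nsq ζ < 1) :
    x + s • ζ ∈ closedBall x r := by
  have h1 : ‖ζ‖ < 1 := norm_lt_of_nsq one_pos (by simpa using h)
  rw [mem_closedBall_iff_norm, add_sub_cancel_left, norm_smul, Real.norm_of_nonneg hs]
  nlinarith

/-- the mean value inequality -/
lemma sub_mean (hK : Ker n κ Kp) {g : V n → ℝ} {O : Set (V n)} (hO : IsOpen O) {x : V n} {r : ℝ}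
    (hr : 0 ≤ r) (hsub : closedBall x r ⊆ O) (hg : ContDiffOn ℝ ∞ g O)
    (hpsh : ∀ z ∈ O, ∀ v, 0 ≤ lev g z v) :
    0 ≤ ∫ ζ, κ ζ * (g (x + r • ζ) - g x) := by
  have hrep := hK.rep g x 0 r O hO le_rfl hr hsub (by exact_mod_cast contDiffOn_infty.1 hg 2)
  have e1 : (fun ζ => κ ζ * (g (x + r • ζ) - g (x + (0 : ℝ) • ζ))) =
      fun ζ => κ ζ * (g (x + r • ζ) - g x) := by
    funext ζ
    rw [zero_smul, add_zero]
  rw [e1] at hrep
  rw [hrep]
  refine mul_nonneg (by norm_num) (intervalIntegral.integral_nonneg hr fun s hs => ?_)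
  refine mul_nonneg hs.1 (integral_nonneg fun ζ => ?_)
  rcases lt_or_ge (nsq ζ) 1 with h | h
  · exact mul_nonneg (ker_nonneg hK ζ).2
      (Finset.sum_nonneg fun k _ => hpsh _ (hsub (pt_mem hs.1 hs.2 h)) _)
  · show 0 ≤ Kp ζ * _
    rw [(hK.zero ζ h).2]
    simp


/-- integrability of `log |q|` -/
lemma int_log (hZER : T_ZER) (hLGG : T_LGG) (hK : Ker n κ Kp) {y : V n} {s R : ℝ} {q : V n → ℂ}
    (hs : 0 < s) (hsR : s < R) (hq : DifferentiableOn ℂ q (ball y R)) (hqm : Measurable q)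
    (hne : ∃ x ∈ ball y R, q x ≠ 0) :
    IntegrableOn (fun x => Real.log ‖q x‖) {x | nsq (x - y) ≤ s ^ 2} := by
  obtain ⟨r, hr⟩ : ∃ r, r = (s + R) / 2 := ⟨_, rfl⟩
  have hsr : s < r := by linarith
  have hrR : r < R := by linarith
  have hr0 : 0 < r := by linarith
  -- the new centre
  obtain ⟨x0, ⟨hx0η, hx0b⟩, hx0q⟩ : ∃ x0 ∈ {x | nsq (x - y) < (r - s) ^ 2 / 2} ∩ ball y (R - r),
      q x0 ≠ 0 := by
    by_contra hcon
    push Not at hcon
    set U := {x | nsq (x - y) < (r - s) ^ 2 / 2} ∩ ball y (R - r) with hU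
    have hUo : IsOpen U := by
      apply IsOpen.inter _ isOpen_ball
      exact isOpen_lt (continuous_nsq.comp (continuous_sub_right y)) continuous_const
    have hUne : U.Nonempty := by
      refine ⟨y, ?_, mem_ball_self (by linarith)⟩
      show nsq (y - y) < (r - s) ^ 2 / 2
      have h1 : nsq (y - y) = 0 := by simp [nsq]
      rw [h1]
      have : 0 < r - s := by linarith
      positivity
    have h1 : volume U = 0 := by
      apply measure_mono_null _ (hZER n y R q hq hne)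
      intro x hx
      exact ⟨ball_subset_ball (by linarith) hx.2, hcon x hx⟩
    exact (hUo.measure_pos volume hUne).ne' h1
  have hcb : closedBall x0 r ⊆ ball y R := by
    intro x hx
    rw [mem_ball]
    have h1 := dist_triangle x x0 y
    rw [mem_closedBall] at hx
    rw [mem_ball] at hx0b
    linarith
  -- points of the small ball
  set θ := (r + s) / (2 * r) with hθ
  have hθ1 : θ < 1 := by
    rw [hθ, div_lt_one (by positivity)]
    linarith
  have hθ0 : 0 ≤ θ := by positivity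
  have hpt : ∀ x, nsq (x - y) ≤ s ^ 2 → nsq (x - x0) ≤ θ * r ^ 2 := by
    intro x hx
    have h1 : nsq (x - x0) ≤ r / s * nsq (x - y) + r / (r - s) * nsq (x0 - y) := by
      unfold nsq
      rw [Finset.mul_sum, Finset.mul_sum, ← Finset.sum_add_distrib]
      refine Finset.sum_le_sum fun i _ => ?_
      have h2 : ‖(x - x0) i‖ ≤ ‖(x - y) i‖ + ‖(x0 - y) i‖ := by
        have : (x - x0) i = (x - y) i - (x0 - y) i := by simp
        rw [this]
        exact norm_sub_le _ _
      set A := ‖(x - y) i‖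
      set B := ‖(x0 - y) i‖
      have hrs : 0 < r - s := by linarith
      have h3 : (A + B) ^ 2 ≤ r / s * A ^ 2 + r / (r - s) * B ^ 2 := by
        have h4 : r / s * A ^ 2 + r / (r - s) * B ^ 2 - (A + B) ^ 2 =
            ((r - s) * A - s * B) ^ 2 / (s * (r - s)) := by
          field_simp
          ring
        have h5 : 0 ≤ ((r - s) * A - s * B) ^ 2 / (s * (r - s)) := by positivity
        linarith
      refine le_trans ?_ h3
      exact pow_le_pow_left₀ (norm_nonneg _) h2 2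
    have hrs : 0 < r - s := by linarith
    have h2 : r / s * nsq (x - y) ≤ r / s * s ^ 2 := by gcongr
    have h3 : r / (r - s) * nsq (x0 - y) ≤ r / (r - s) * ((r - s) ^ 2 / 2) := by
      have : nsq (x0 - y) ≤ (r - s) ^ 2 / 2 := le_of_lt hx0η
      gcongr
    have h4 : r / s * s ^ 2 + r / (r - s) * ((r - s) ^ 2 / 2) = θ * r ^ 2 := by
      rw [hθ]
      field_simp
      ring
    linarith
  -- lower bound of the kernel
  obtain ⟨c0, hc0, hκc⟩ : ∃ c0 : ℝ, 0 < c0 ∧ ∀ ζ : V n, nsq ζ ≤ θ → c0 ≤ κ ζ := by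
    have hne : {z : V n | nsq z ≤ θ}.Nonempty := ⟨0, by
      show nsq (0 : V n) ≤ θ
      have : nsq (0 : V n) = 0 := by simp [nsq]
      rw [this]; exact hθ0⟩
    obtain ⟨x, hx, hmin⟩ := (compact_nsq (n := n) θ).exists_isMinOn hne
      (hK.smooth.1.continuous.continuousOn)
    refine ⟨κ x, (hK.pos x ?_).1, fun ζ hζ => hmin hζ⟩
    have : nsq x ≤ θ := hx
    linarith
  -- upper bound
  obtain ⟨hg1, hp1⟩ := gd_facts hLGG isOpen_ball hq one_pos
  obtain ⟨B, hB0, hB⟩ : ∃ B : ℝ, 0 ≤ B ∧ ∀ x ∈ closedBall x0 r, gd q 1 x ≤ B := by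
    obtain ⟨B, hB⟩ := ((isCompact_closedBall x0 r).image_of_continuousOn
      (hg1.continuousOn.mono hcb)).bddAbove
    exact ⟨max B 0, le_max_right _ _, fun x hx => (hB ⟨x, hx, rfl⟩).trans (le_max_left _ _)⟩
  have hℓB : ∀ x ∈ closedBall x0 r, Real.log ‖q x‖ ≤ B := by
    intro x hx
    by_cases h : q x = 0
    · rw [h]; simpa using hB0
    · exact (log_le_gd x h).trans (hB x hx)
  -- the mean value inequality
  have hmv : ∀ δ : ℝ, 0 < δ → δ ≤ 1 → Integrable (fun ζ => κ ζ * (B - gd q δ (x0 + r • ζ))) ∧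
      ∫ ζ, κ ζ * (B - gd q δ (x0 + r • ζ)) ≤ B - Real.log ‖q x0‖ := by
    intro δ h0 h1
    obtain ⟨hg, hp⟩ := gd_facts hLGG isOpen_ball hq h0
    obtain ⟨C, hC⟩ := ((isCompact_closedBall x0 r).exists_bound_of_continuousOn
      (hg.continuousOn.mono hcb))
    have hmeas : Measurable (fun ζ : V n => gd q δ (x0 + r • ζ)) :=
      (gd_measurable hqm δ).comp (by fun_prop)
    have hi1 : Integrable (fun ζ => κ ζ * gd q δ (x0 + r • ζ)) :=
      int_ker hK hmeas (B := C) fun ζ hζ => hC _ (pt_mem hr0.le le_rfl hζ)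
    have hi2 : Integrable (fun ζ => κ ζ * B) := (ker_int hK).mul_const B
    have hi3 : Integrable (fun ζ => κ ζ * gd q δ x0) := (ker_int hK).mul_const _
    have hsm := sub_mean hK isOpen_ball hr0.le hcb hg hp
    have e1 : ∫ ζ, κ ζ * (gd q δ (x0 + r • ζ) - gd q δ x0) =
        (∫ ζ, κ ζ * gd q δ (x0 + r • ζ)) - gd q δ x0 := by
      have : (fun ζ => κ ζ * (gd q δ (x0 + r • ζ) - gd q δ x0)) =
          fun ζ => κ ζ * gd q δ (x0 + r • ζ) - κ ζ * gd q δ x0 := by
        funext ζ; ring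
      rw [this, integral_sub hi1 hi3, integral_mul_const, hK.one, one_mul]
    rw [e1] at hsm
    have e2 : (fun ζ => κ ζ * (B - gd q δ (x0 + r • ζ))) =
          fun ζ => κ ζ * B - κ ζ * gd q δ (x0 + r • ζ) := by
        funext ζ; ring
    rw [e2]
    refine ⟨hi2.sub hi1, ?_⟩
    rw [integral_sub hi2 hi1, integral_mul_const, hK.one, one_mul]
    have h5 := log_le_gd (δ := δ) x0 hx0q
    linarith
  -- Fatou
  set Ψ : V n → ℝ := fun ζ => κ ζ * (B - Real.log ‖q (x0 + r • ζ)‖) with hΨ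
  have hΨnn : ∀ ζ, 0 ≤ Ψ ζ := by
    intro ζ
    rcases lt_or_ge (nsq ζ) 1 with h | h
    · exact mul_nonneg (ker_nonneg hK ζ).1
        (sub_nonneg.2 (hℓB _ (pt_mem hr0.le le_rfl h)))
    · simp only [hΨ]
      rw [(hK.zero ζ h).1]
      simp
  have hΨm : Measurable Ψ := by
    apply hK.smooth.1.continuous.measurable.mul
    apply Measurable.const_sub
    exact Real.measurable_log.comp ((hqm.comp (by fun_prop)).norm)
  have hdj0 : ∀ j : ℕ, (0 : ℝ) < 1 / ((j : ℝ) + 1) := fun j => Nat.one_div_pos_of_nat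
  have hdj1 : ∀ j : ℕ, (1 : ℝ) / ((j : ℝ) + 1) ≤ 1 := fun j => by
    rw [div_le_one (by positivity)]
    linarith [Nat.cast_nonneg (α := ℝ) j]
  have hΨfin : ∫⁻ ζ, ENNReal.ofReal (Ψ ζ) ≤ ENNReal.ofReal (B - Real.log ‖q x0‖) := by
    have hae : ∀ᵐ ζ : V n, q (x0 + r • ζ) ≠ 0 ∨ 1 ≤ nsq ζ := by
      have h1 := hZER n y R q hq hne
      have h2 : volume ((fun ζ : V n => r • ζ) ⁻¹' ((fun x : V n => x0 + x) ⁻¹'
          {z ∈ ball y R | q z = 0})) = 0 := by
        rw [Measure.addHaar_preimage_smul _ hr0.ne', measure_preimage_add, h1, mul_zero]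
      rw [ae_iff]
      apply measure_mono_null _ h2
      intro ζ hζ
      simp only [ne_eq, not_or, not_not, not_le, mem_ofPred_eq] at hζ
      exact ⟨hcb (pt_mem hr0.le le_rfl hζ.2), hζ.1⟩
    have hlim : ∀ᵐ ζ : V n, Tendsto (fun j : ℕ => ENNReal.ofReal
        (κ ζ * (B - gd q (1 / ((j : ℝ) + 1)) (x0 + r • ζ)))) atTop (𝓝 (ENNReal.ofReal (Ψ ζ))) := by
      filter_upwards [hae] with ζ hζ
      apply ENNReal.tendsto_ofReal
      rcases hζ with h | h
      · apply Tendsto.const_mul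
        apply Tendsto.const_sub
        exact (gd_tendsto _ h).comp tendsto_one_div_add_atTop_nhds_zero_nat
      · simp only [hΨ]
        rw [(hK.zero ζ h).1]
        simp
    have hF := lintegral_liminf_le' (μ := (volume : Measure (V n))) (u := atTop) (f := fun (j : ℕ) ζ =>
      ENNReal.ofReal (κ ζ * (B - gd q (1 / ((j : ℝ) + 1)) (x0 + r • ζ)))) fun j =>
        ((hmv _ (hdj0 j) (hdj1 j)).1.aestronglyMeasurable.aemeasurable).ennreal_ofReal
    have hE : ∫⁻ ζ, ENNReal.ofReal (Ψ ζ) = ∫⁻ ζ, liminf (fun j : ℕ => ENNReal.ofReal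
        (κ ζ * (B - gd q (1 / ((j : ℝ) + 1)) (x0 + r • ζ)))) atTop := by
      apply lintegral_congr_ae
      filter_upwards [hlim] with ζ hζ
      exact hζ.liminf_eq.symm
    rw [hE]
    refine hF.trans ?_
    refine liminf_le_of_le (by isBoundedDefault) fun b hb => ?_
    obtain ⟨j, hj⟩ := hb.exists
    refine hj.trans ?_
    rw [← ofReal_integral_eq_lintegral_ofReal (hmv _ (hdj0 j) (hdj1 j)).1]
    · exact ENNReal.ofReal_le_ofReal (hmv _ (hdj0 j) (hdj1 j)).2
    · refine ae_of_all _ fun ζ => ?_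
      show 0 ≤ κ ζ * _
      rcases lt_or_ge (nsq ζ) 1 with h | h
      · have hp := pt_mem (x := x0) hr0.le le_rfl h
        exact mul_nonneg (ker_nonneg hK ζ).1
          (sub_nonneg.2 ((gd_mono (hdj0 j) (hdj1 j) _).trans (hB _ hp)))
      · rw [(hK.zero ζ h).1]
        simp
  have hΨi : Integrable Ψ := by
    refine ⟨hΨm.aestronglyMeasurable, ?_⟩
    have h1 : ∫⁻ ζ, ‖Ψ ζ‖ₑ = ∫⁻ ζ, ENNReal.ofReal (Ψ ζ) := by
      apply lintegral_congr
      intro ζ
      rw [Real.enorm_eq_ofReal (hΨnn ζ)]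
    show ∫⁻ ζ, ‖Ψ ζ‖ₑ < ⊤
    rw [h1]
    exact hΨfin.trans_lt ENNReal.ofReal_lt_top
  -- back to `x`
  set E : Set (V n) := {x | nsq (x - y) ≤ s ^ 2} with hE
  have hEc : IsClosed E := isClosed_le (continuous_nsq.comp (continuous_sub_right y)) continuous_const
  have hEm : MeasurableSet E := hEc.measurableSet
  have hEb : E ⊆ closedBall x0 r := by
    intro x hx
    rw [mem_closedBall_iff_norm]
    have h1 := hpt x hx
    refine (norm_lt_of_nsq hr0 (lt_of_le_of_lt h1 ?_)).le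
    have : 0 < r ^ 2 := by positivity
    nlinarith
  set F : V n → ℝ := E.indicator (fun x => B - Real.log ‖q x‖) with hFdef
  have hFm : Measurable F := by
    apply Measurable.indicator _ hEm
    exact (Real.measurable_log.comp hqm.norm).const_sub _
  have hF1 : Integrable (fun ζ => F (x0 + r • ζ)) := by
    refine (hΨi.const_mul c0⁻¹).mono' (hFm.comp (by fun_prop)).aestronglyMeasurable
      (ae_of_all _ fun ζ => ?_)
    by_cases hmem : x0 + r • ζ ∈ E
    · have h1 := hpt _ hmem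
      rw [add_sub_cancel_left, nsq_rsmul] at h1
      have h2 : nsq ζ ≤ θ := by
        have : 0 < r ^ 2 := by positivity
        nlinarith
      have h3 := hκc ζ h2
      have h4 : 0 ≤ B - Real.log ‖q (x0 + r • ζ)‖ := sub_nonneg.2 (hℓB _ (hEb hmem))
      rw [hFdef, indicator_of_mem hmem, Real.norm_of_nonneg h4]
      simp only [hΨ]
      rw [← mul_assoc]
      have h5 : 1 ≤ c0⁻¹ * κ ζ := by
        rw [← div_eq_inv_mul, le_div_iff₀ hc0]
        linarith
      nlinarith
    · rw [hFdef, indicator_of_notMem hmem, norm_zero]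
      exact mul_nonneg (inv_nonneg.2 hc0.le) (hΨnn ζ)
  have hF2 : Integrable F := by
    have h1 : Integrable (fun z => F (x0 + z)) :=
      (integrable_comp_smul_iff volume (fun z => F (x0 + z)) hr0.ne').1 hF1
    have h2 := h1.comp_add_left (-x0)
    simpa using h2
  have hF3 : IntegrableOn (fun x => B - Real.log ‖q x‖) E := (integrable_indicator_iff hEm).1 hF2
  have hEfin : volume E ≠ ⊤ :=
    ((isCompact_closedBall x0 r).of_isClosed_subset hEc hEb).measure_ne_top
  have hconst : IntegrableOn (fun _ : V n => B) E := integrableOn_const hEfin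
  have := hconst.sub hF3
  refine this.congr (ae_of_all _ fun x => ?_)
  simp

end Pool.Agent.H54.VG
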