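import Pool.Agent.H54.VG.JENa

/-!
# VG, module JEN, part b: the limit and the representation formula
-/

set_option autoImplicit false

open MeasureTheory Set Filter Topology Metric
open scoped ENNReal NNReal ContDiff ComplexConjugate

namespace Pool.Agent.H54.VG

open Pool.Agent.H95.VG

variable {n : ℕ} {κ Kp : V n → ℝ}

lemma ker_bdd (hK : Ker n κ Kp) : ∃ M : ℝ, 0 < M ∧ (∀ ζ, κ ζ ≤ M) ∧ ∀ ζ, Kp ζ ≤ M := by
  obtain ⟨C1, hC1⟩ := hK.smooth.1.continuous.bounded_above_of_compact_support (ker_cs hK).1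
  obtain ⟨C2, hC2⟩ := hK.smooth.2.continuous.bounded_above_of_compact_support (ker_cs hK).2
  refine ⟨max (max C1 C2) 1, lt_of_lt_of_le one_pos (le_max_right _ _), fun ζ => ?_, fun ζ => ?_⟩
  · exact ((le_abs_self _).trans (hC1 ζ)).trans ((le_max_left _ _).trans (le_max_left _ _))
  · exact ((le_abs_self _).trans (hC2 ζ)).trans ((le_max_right _ _).trans (le_max_left _ _))

lemma int_line (hK : Ker n κ Kp) {y : V n} {s s' : ℝ} (hs' : 0 < s') (hss : s' ≤ s)
    {ℓ : V n → ℝ} (h : IntegrableOn ℓ {x | nsq (x - y) ≤ s ^ 2}) :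
    Integrable (fun ζ => κ ζ * ℓ (y + s' • ζ)) := by
  set E : Set (V n) := {x | nsq (x - y) ≤ s ^ 2} with hE
  have hEc : IsClosed E := isClosed_le (continuous_nsq.comp (continuous_sub_right y)) continuous_const
  have hEm : MeasurableSet E := hEc.measurableSet
  have h1 : Integrable (E.indicator ℓ) := (integrable_indicator_iff hEm).2 h
  have h2 : Integrable (fun ζ => E.indicator ℓ (y + s' • ζ)) :=
    (integrable_comp_smul_iff volume (fun z => E.indicator ℓ (y + z)) hs'.ne').2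
      (h1.comp_add_left y)
  obtain ⟨M, hM, hM1, hM2⟩ := ker_bdd hK
  have h3 : Integrable (fun ζ => κ ζ * E.indicator ℓ (y + s' • ζ)) := by
    refine h2.bdd_mul (c := M) hK.smooth.1.continuous.aestronglyMeasurable (ae_of_all _ fun ζ => ?_)
    rw [Real.norm_of_nonneg (ker_nonneg hK ζ).1]
    exact hM1 ζ
  refine h3.congr (ae_of_all _ fun ζ => ?_)
  show κ ζ * E.indicator ℓ (y + s' • ζ) = κ ζ * ℓ (y + s' • ζ)
  rcases lt_or_ge (nsq ζ) 1 with h | h
  · rw [indicator_of_mem]
    show nsq (y + s' • ζ - y) ≤ s ^ 2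
    rw [add_sub_cancel_left, nsq_rsmul]
    have h5 : s' ^ 2 ≤ s ^ 2 := by gcongr
    nlinarith [nsq_nonneg ζ, sq_nonneg s']
  · rw [(hK.zero ζ h).1]
    simp

/-- the limit of the left hand side -/
lemma jen_lim (hZER : T_ZER) (hLGG : T_LGG) (hK : Ker n κ Kp) {y : V n} {ρ R : ℝ}
    {q : V n → ℂ} (hρ : 0 < ρ) (hρR : 2 * ρ < R) (hq : DifferentiableOn ℂ q (ball y R))
    (hqm : Measurable q) (hqy : q y = 0) (hne : ∃ x ∈ ball y R, q x ≠ 0) :
    Integrable (fun ζ => κ ζ * Real.log ‖q (y + (2 * ρ) • ζ)‖) ∧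
    Integrable (fun ζ => κ ζ * Real.log ‖q (y + ρ • ζ)‖) ∧
    Real.log 2 ≤ ∫ ζ, κ ζ * (Real.log ‖q (y + (2 * ρ) • ζ)‖ - Real.log ‖q (y + ρ • ζ)‖) := by
  have h2ρ : 0 < 2 * ρ := by positivity
  have hℓ := int_log hZER hLGG hK h2ρ hρR hq hqm hne
  have hi2 := int_line hK h2ρ le_rfl hℓ
  have hi1 := int_line hK hρ (by linarith : ρ ≤ 2 * ρ) hℓ
  refine ⟨hi2, hi1, ?_⟩
  set H : V n → ℝ := fun ζ => κ ζ * (Real.log ‖q (y + (2 * ρ) • ζ)‖ - Real.log ‖q (y + ρ • ζ)‖)
    with hH
  have hHi : Integrable H := by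
    refine (hi2.sub hi1).congr (ae_of_all _ fun ζ => ?_)
    simp only [hH, Pi.sub_apply]
    ring
  have hHm : Measurable H := by
    apply hK.smooth.1.continuous.measurable.mul
    exact (Real.measurable_log.comp (hqm.comp (by fun_prop)).norm).sub
      (Real.measurable_log.comp (hqm.comp (by fun_prop)).norm)
  -- almost every complex line
  have hae : ∀ᵐ ζ : V n, q (y + ρ • ζ) ≠ 0 ∨ 1 ≤ nsq ζ := by
    have h1 := hZER n y R q hq hne
    have h2 : volume ((fun ζ : V n => ρ • ζ) ⁻¹' ((fun x : V n => y + x) ⁻¹'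
        {z ∈ ball y R | q z = 0})) = 0 := by
      rw [Measure.addHaar_preimage_smul _ hρ.ne', measure_preimage_add, h1, mul_zero]
    rw [ae_iff]
    apply measure_mono_null _ h2
    intro ζ hζ
    simp only [ne_eq, not_or, not_not, not_le, mem_ofPred_eq] at hζ
    exact ⟨closedBall_subset_ball hρR (pt_mem hρ.le (by linarith) hζ.2), hζ.1⟩
  set c : ℝ → ℂ := fun θ => Complex.exp (θ * Complex.I) with hc
  have hc1 : ∀ θ, ‖c θ‖ = 1 := fun θ => Complex.norm_exp_ofReal_mul_I θ
  have hcc : Continuous c := by fun_prop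
  have hinner : ∀ᵐ ζ : V n, κ ζ * (2 * Real.pi * Real.log 2) ≤
      ∫ θ in Ioc 0 (2 * Real.pi), H (c θ • ζ) := by
    filter_upwards [hae] with ζ hζ
    rcases lt_or_ge (nsq ζ) 1 with h | h
    swap
    · have h0 : ∀ θ, H (c θ • ζ) = 0 := by
        intro θ
        simp only [hH]
        rw [(hK.rot (c θ) ζ (hc1 θ)).1, (hK.zero ζ h).1, zero_mul]
      simp only [h0]
      rw [(hK.zero ζ h).1]
      simp
    have hζ' : q (y + ρ • ζ) ≠ 0 := by
      rcases hζ with h1 | h1
      · exact h1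
      · linarith
    have hζ1 : ‖ζ‖ < 1 := norm_lt_of_nsq one_pos (by simpa using h)
    set u : ℂ → ℂ := fun τ => q (y + τ • ζ) with hu
    have hmem : ∀ τ : ℂ, τ ∈ closedBall (0 : ℂ) (2 * ρ) → y + τ • ζ ∈ ball y R := by
      intro τ hτ
      rw [mem_closedBall_zero_iff] at hτ
      rw [mem_ball_iff_norm, add_sub_cancel_left, norm_smul]
      have : ‖τ‖ * ‖ζ‖ ≤ ‖τ‖ * 1 := by gcongr
      linarith
    have hua : AnalyticOnNhd ℂ u (closedBall 0 (2 * ρ)) := by
      have hO : IsOpen {τ : ℂ | y + τ • ζ ∈ ball y R} := isOpen_ball.preimage (by fun_prop)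
      have hd : DifferentiableOn ℂ u {τ : ℂ | y + τ • ζ ∈ ball y R} := by
        apply hq.comp (t := ball y R) (by fun_prop)
        intro τ hτ
        exact hτ
      exact (hd.analyticOnNhd hO).mono hmem
    have hu0 : u 0 = 0 := by simp [hu, hqy]
    have hρmem : (ρ : ℂ) ∈ closedBall (0 : ℂ) (2 * ρ) := by
      rw [mem_closedBall_zero_iff, Complex.norm_real, Real.norm_of_nonneg hρ.le]
      linarith
    have hj := jensen_step hρ hua hu0 ⟨ρ, hρmem, hζ'⟩
    have hm2 : MeromorphicOn u (sphere 0 |2 * ρ|) := by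
      rw [abs_of_pos h2ρ]
      exact (hua.mono sphere_subset_closedBall).meromorphicOn
    have hm1 : MeromorphicOn u (sphere 0 |ρ|) := by
      rw [abs_of_pos hρ]
      exact (hua.mono (sphere_subset_closedBall.trans
        (closedBall_subset_closedBall (by linarith)))).meromorphicOn
    have hci2 := hm2.circleIntegrable_log_norm
    have hci1 := hm1.circleIntegrable_log_norm
    unfold CircleIntegrable at hci1 hci2
    have hval : ∀ θ, H (c θ • ζ) = κ ζ * (Real.log ‖u (circleMap 0 (2 * ρ) θ)‖ -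
        Real.log ‖u (circleMap 0 ρ θ)‖) := by
      intro θ
      simp only [hH, hu]
      rw [(hK.rot (c θ) ζ (hc1 θ)).1]
      have e : ∀ r : ℝ, r • c θ • ζ = circleMap 0 r θ • ζ := by
        intro r
        rw [circleMap, zero_add, mul_smul]
        rfl
      rw [e, e]
    simp only [hval]
    rw [← intervalIntegral.integral_of_le (by positivity), intervalIntegral.integral_const_mul,
      intervalIntegral.integral_sub hci2 hci1]
    rw [Real.circleAverage_def, Real.circleAverage_def] at hj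
    apply mul_le_mul_of_nonneg_left _ (ker_nonneg hK ζ).1
    rw [← smul_sub, smul_eq_mul] at hj
    have hpi := Real.pi_pos
    rw [← div_eq_inv_mul, le_div_iff₀ (by positivity)] at hj
    linarith
  -- Fubini
  have hfi : Integrable (fun p : ℝ × V n => H (c p.1 • p.2))
      ((volume.restrict (Ioc 0 (2 * Real.pi))).prod volume) := by
    have hm : Measurable (fun p : ℝ × V n => H (c p.1 • p.2)) :=
      hHm.comp (by fun_prop : Continuous (fun p : ℝ × V n => c p.1 • p.2)).measurable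
    rw [integrable_prod_iff hm.aestronglyMeasurable]
    constructor
    · refine ae_of_all _ fun θ => ?_
      exact (mp_rot (c θ) (hc1 θ)).integrable_comp_of_integrable hHi
    · have h1 : ∀ θ : ℝ, ∫ ζ, ‖H (c θ • ζ)‖ = ∫ ζ, ‖H ζ‖ := by
        intro θ
        have hh := (mp_rot (n := n) (c θ) (hc1 θ)).integral_comp
          (((Homeomorph.smulOfNeZero (c θ) (by
            intro h0
            have := hc1 θ
            rw [h0] at this
            simp at this)).toMeasurableEquiv).measurableEmbedding) (fun ζ => ‖H ζ‖)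
        exact hh
      simp only [h1]
      exact integrable_const _
  have hswap := integral_integral_swap (f := fun (θ : ℝ) (ζ : V n) => H (c θ • ζ)) hfi
  have hrot : ∀ θ : ℝ, ∫ ζ, H (c θ • ζ) = ∫ ζ, H ζ := by
    intro θ
    exact (mp_rot (n := n) (c θ) (hc1 θ)).integral_comp
      (((Homeomorph.smulOfNeZero (c θ) (by
        intro h0
        have := hc1 θ
        rw [h0] at this
        simp at this)).toMeasurableEquiv).measurableEmbedding) H
  simp only [hrot] at hswap
  have hright := hfi.integral_prod_right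
  have hle := integral_mono_ae ((ker_int hK).mul_const (2 * Real.pi * Real.log 2)) hright hinner
  rw [integral_mul_const, hK.one, one_mul] at hle
  have hpi := Real.pi_pos
  have h3 : ∫ _ in Ioc (0 : ℝ) (2 * Real.pi), ∫ ζ, H ζ = 2 * Real.pi * ∫ ζ, H ζ := by
    rw [setIntegral_const, Measure.real, Real.volume_Ioc, sub_zero,
      ENNReal.toReal_ofReal (by positivity), smul_eq_mul]
  rw [h3] at hswap
  rw [← hswap] at hle
  have : 2 * Real.pi * Real.log 2 ≤ 2 * Real.pi * ∫ ζ, H ζ := hle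
  exact le_of_mul_le_mul_left this (by positivity)


/-- the right hand side of the representation formula -/
lemma rep_le (hK : Ker n κ Kp) (hn : 1 ≤ n) {M : ℝ} (hM : ∀ ζ, Kp ζ ≤ M)
    {y : V n} {ρ R : ℝ} {g : V n → ℝ} (hρ : 0 < ρ) (hρR : 2 * ρ < R)
    (hg : ContDiffOn ℝ ∞ g (ball y R)) (hp : ∀ z ∈ ball y R, ∀ v, 0 ≤ lev g z v)
    (hcont : ContinuousOn (fun x => ∑ k, lev g x (ek k)) (ball y R)) :
    (∫ ζ, κ ζ * (g (y + (2 * ρ) • ζ) - g (y + ρ • ζ))) * ρ ^ (2 * n - 2) ≤
      8 * M * ∫ x in ball y (2 * ρ), ∑ k, lev g x (ek k) := by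
  have h2ρ : 0 < 2 * ρ := by positivity
  have hM0 : 0 ≤ M := (ker_nonneg hK 0).2.trans (hM 0)
  have hcb : closedBall y (2 * ρ) ⊆ ball y R := closedBall_subset_ball hρR
  set Λ : V n → ℝ := fun x => ∑ k, lev g x (ek k) with hΛ
  have hΛ0 : ∀ z ∈ ball y R, 0 ≤ Λ z := fun z hz => Finset.sum_nonneg fun k _ => hp z hz _
  set J := ∫ x in ball y (2 * ρ), Λ x with hJ
  have hJi : IntegrableOn Λ (ball y (2 * ρ)) :=
    ((hcont.mono hcb).integrableOn_compact (isCompact_closedBall _ _)).mono_set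
      ball_subset_closedBall
  have hJ0 : 0 ≤ J := setIntegral_nonneg measurableSet_ball
    fun x hx => hΛ0 x (hcb (ball_subset_closedBall hx))
  set F : V n → ℝ := (ball y (2 * ρ)).indicator Λ with hF
  have hFi : Integrable F := (integrable_indicator_iff measurableSet_ball).2 hJi
  have hF0 : ∀ x, 0 ≤ F x := by
    intro x
    apply indicator_nonneg
    intro x hx
    exact hΛ0 x (hcb (ball_subset_closedBall hx))
  have hFJ : ∫ x, F x = J := integral_indicator measurableSet_ball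
  have hfr : Module.finrank ℝ (V n) = 2 * n := by
    rw [Module.finrank_pi_fintype]
    simp [Complex.finrank_real_complex]
    ring
  have hrep := hK.rep g y ρ (2 * ρ) (ball y R) isOpen_ball hρ.le (by linarith) hcb
    (by exact_mod_cast contDiffOn_infty.1 hg 2)
  rw [hrep]
  have hb : ∀ s ∈ Ioc ρ (2 * ρ), ‖s * ∫ ζ, Kp ζ * ∑ k, lev g (y + s • ζ) (ek k)‖ ≤
      2 * ρ * (M * ((ρ ^ (2 * n))⁻¹ * J)) := by
    intro s hs
    have hs0 : 0 < s := hρ.trans hs.1
    have hi1 : Integrable (fun ζ => F (y + s • ζ)) :=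
      (integrable_comp_smul_iff volume (fun z => F (y + z)) hs0.ne').2 (hFi.comp_add_left y)
    have hval : ∫ ζ, F (y + s • ζ) = (s ^ (2 * n))⁻¹ * J := by
      have h1 := Measure.integral_comp_smul (volume : Measure (V n)) (fun z => F (y + z)) s
      rw [h1, integral_add_left_eq_self, hFJ, hfr, smul_eq_mul, abs_of_pos (by positivity)]
    have h0 : ∀ ζ, 0 ≤ Kp ζ * ∑ k, lev g (y + s • ζ) (ek k) := by
      intro ζ
      rcases lt_or_ge (nsq ζ) 1 with h | h
      · exact mul_nonneg (ker_nonneg hK ζ).2 (hΛ0 _ (hcb (pt_mem hs0.le hs.2 h)))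
      · rw [(hK.zero ζ h).2]
        simp
    have hle : ∫ ζ, Kp ζ * ∑ k, lev g (y + s • ζ) (ek k) ≤ M * ((s ^ (2 * n))⁻¹ * J) := by
      rw [← hval, ← integral_const_mul]
      refine integral_mono_of_nonneg (ae_of_all _ h0) (hi1.const_mul M) (ae_of_all _ fun ζ => ?_)
      show Kp ζ * Λ (y + s • ζ) ≤ M * F (y + s • ζ)
      rcases lt_or_ge (nsq ζ) 1 with h | h
      · have hmem : y + s • ζ ∈ ball y (2 * ρ) := by
          have h1 : ‖ζ‖ < 1 := norm_lt_of_nsq one_pos (by simpa using h)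
          rw [mem_ball_iff_norm, add_sub_cancel_left, norm_smul, Real.norm_of_nonneg hs0.le]
          have h2 := hs.2
          nlinarith
        rw [hF, indicator_of_mem hmem]
        exact mul_le_mul_of_nonneg_right (hM ζ) (hΛ0 _ (hcb (ball_subset_closedBall hmem)))
      · rw [(hK.zero ζ h).2, zero_mul]
        exact mul_nonneg hM0 (hF0 _)
    rw [Real.norm_of_nonneg (mul_nonneg hs0.le (integral_nonneg h0))]
    have h5 : (s ^ (2 * n))⁻¹ ≤ (ρ ^ (2 * n))⁻¹ := by
      have := hs.1.le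
      gcongr
    calc s * ∫ ζ, Kp ζ * ∑ k, lev g (y + s • ζ) (ek k)
        ≤ (2 * ρ) * (M * ((s ^ (2 * n))⁻¹ * J)) := by
          apply mul_le_mul hs.2 hle (integral_nonneg h0) h2ρ.le
      _ ≤ _ := by gcongr
  have h6 := intervalIntegral.norm_integral_le_of_norm_le_const (a := ρ) (b := 2 * ρ)
    (f := fun s => s * ∫ ζ, Kp ζ * ∑ k, lev g (y + s • ζ) (ek k)) (by
      rw [uIoc_of_le (by linarith)]
      exact hb)
  have h7 : ∫ s in ρ..(2 * ρ), s * ∫ ζ, Kp ζ * ∑ k, lev g (y + s • ζ) (ek k) ≤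
      2 * ρ * (M * ((ρ ^ (2 * n))⁻¹ * J)) * ρ := by
    refine ((le_abs_self _).trans h6).trans (le_of_eq ?_)
    rw [abs_of_pos (by linarith)]
    ring
  have h8 : ρ ^ (2 * n) = ρ ^ (2 * n - 2) * ρ ^ 2 := by
    rw [← pow_add]
    congr 1
    omega
  have h9 : 0 < ρ ^ (2 * n - 2) := by positivity
  calc _ ≤ 4 * (2 * ρ * (M * ((ρ ^ (2 * n))⁻¹ * J)) * ρ) * ρ ^ (2 * n - 2) := by gcongr
    _ = 8 * M * J := by
      rw [h8]
      field_simp
      ring

end Pool.Agent.H54.VG
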