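import Pool.Agent.H95.VG.Targets3

/-!
# VG, module NEW: from power sums to the points
-/

set_option autoImplicit false

namespace Pool.Agent.H54.VG

open Set Pool.Agent.H95.VG

/-- Newton: bounds of the elementary symmetric functions from bounds of the power sums -/
theorem esymm_bound {σ : Type} [Fintype σ] [DecidableEq σ] (x : σ → ℂ) (R q : ℝ) (m : ℕ)
    (hR : 0 ≤ R) (hq : 0 ≤ q) (hq1 : q ≤ 1)
    (hp : ∀ j, 1 ≤ j → j ≤ m → ‖∑ l, x l ^ j‖ ≤ R ^ j * q) :
    ∀ j, 1 ≤ j → j ≤ m → ‖MvPolynomial.aeval x (MvPolynomial.esymm σ ℂ j)‖ ≤ R ^ j * q := by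
  have key : ∀ j, j ≤ m → ‖MvPolynomial.aeval x (MvPolynomial.esymm σ ℂ j)‖ ≤ R ^ j ∧
      (1 ≤ j → ‖MvPolynomial.aeval x (MvPolynomial.esymm σ ℂ j)‖ ≤ R ^ j * q) := by
    intro j
    induction j using Nat.strong_induction_on with
    | _ j ih =>
      intro hj
      rcases Nat.eq_zero_or_pos j with rfl | hj0
      · simp
      have h1 := congrArg (MvPolynomial.aeval x) (MvPolynomial.mul_esymm_eq_sum σ ℂ j)
      rw [map_mul, map_mul, map_sum, map_natCast] at h1
      have h2 : (j : ℝ) * ‖MvPolynomial.aeval x (MvPolynomial.esymm σ ℂ j)‖ ≤ j * (R ^ j * q) := by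
        have h3 : ‖(j : ℂ) * MvPolynomial.aeval x (MvPolynomial.esymm σ ℂ j)‖ =
            (j : ℝ) * ‖MvPolynomial.aeval x (MvPolynomial.esymm σ ℂ j)‖ := by
          rw [norm_mul, Complex.norm_natCast]
        rw [← h3, h1, norm_mul]
        have h4 : ‖(MvPolynomial.aeval x) ((-1 : MvPolynomial σ ℂ) ^ (j + 1))‖ = 1 := by
          rw [map_pow, map_neg, map_one, norm_pow, norm_neg, norm_one, one_pow]
        rw [h4, one_mul]
        refine (norm_sum_le _ _).trans ?_
        have h5 : ∀ a ∈ (Finset.HasAntidiagonal.antidiagonal j).filter (fun a => a.1 < j),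
            ‖(MvPolynomial.aeval x) ((-1 : MvPolynomial σ ℂ) ^ a.1 *
              MvPolynomial.esymm σ ℂ a.1 * MvPolynomial.psum σ ℂ a.2)‖ ≤ R ^ j * q := by
          intro a ha
          rw [Finset.mem_filter, Finset.HasAntidiagonal.mem_antidiagonal] at ha
          obtain ⟨ha1, ha2⟩ := ha
          rw [map_mul, map_mul, map_pow, map_neg, map_one, norm_mul, norm_mul, norm_pow, norm_neg,
            norm_one, one_pow, one_mul]
          have h6 := (ih a.1 ha2 (by omega)).1
          have h7 : ‖(MvPolynomial.aeval x) (MvPolynomial.psum σ ℂ a.2)‖ ≤ R ^ a.2 * q := by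
            have := hp a.2 (by omega) (by omega)
            simpa [MvPolynomial.psum] using this
          calc _ ≤ R ^ a.1 * (R ^ a.2 * q) := by gcongr
            _ = R ^ j * q := by rw [← ha1, pow_add]; ring
        refine (Finset.sum_le_card_nsmul _ _ _ h5).trans ?_
        rw [nsmul_eq_mul]
        apply mul_le_mul_of_nonneg_right _ (by positivity)
        have h8 : ((Finset.HasAntidiagonal.antidiagonal j).filter (fun a => a.1 < j)).card ≤ j := by
          have : ((Finset.HasAntidiagonal.antidiagonal j).filter (fun a => a.1 < j)).card ≤ (Finset.range j).card := by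
            apply Finset.card_le_card_of_injOn Prod.fst
            · intro a ha
              rw [Finset.mem_coe, Finset.mem_filter] at ha
              simpa using ha.2
            · intro a ha b hb hab
              rw [Finset.mem_coe, Finset.mem_filter, Finset.HasAntidiagonal.mem_antidiagonal] at ha hb
              ext
              · exact hab
              · have h9 : a.1 = b.1 := hab
                omega
          simpa using this
        exact_mod_cast h8
      have hj0R : (0 : ℝ) < j := by exact_mod_cast hj0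
      have h10 := le_of_mul_le_mul_left h2 hj0R
      refine ⟨h10.trans ?_, fun _ => h10⟩
      calc R ^ j * q ≤ R ^ j * 1 := by gcongr
        _ = R ^ j := mul_one _
  intro j hj1 hjm
  exact (key j hjm).2 hj1

/-- NEW: from power sums to the points. -/
theorem new : T_NEW := by
  intro m hm
  refine ⟨m, by exact_mod_cast hm, ?_⟩
  intro S x R q hS hR hq hq1 hp l hl
  classical
  set y : S → ℂ := fun l => x l with hy
  set N := S.card with hN
  have hN1 : 1 ≤ N := Finset.card_pos.2 ⟨l, hl⟩
  have hb := esymm_bound y R q m hR hq hq1 (by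
    intro j hj1 hj2
    have := hp j hj1 hj2
    rw [← Finset.sum_coe_sort] at this
    exact this)
  -- the polynomial
  have hroot := congrArg (Polynomial.eval (x l))
    (Multiset.prod_X_sub_X_eq_sum_esymm ((Finset.univ : Finset S).val.map y))
  have hcard : Multiset.card ((Finset.univ : Finset S).val.map y) = N := by
    rw [Multiset.card_map, Finset.card_val, Finset.card_univ, Fintype.card_coe]
  have hz : Polynomial.eval (x l) ((((Finset.univ : Finset S).val.map y).map
      fun t => Polynomial.X - Polynomial.C t).prod) = 0 := by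
    rw [Polynomial.eval_multiset_prod, Multiset.prod_eq_zero_iff, Multiset.map_map, Multiset.map_map,
      Multiset.mem_map]
    refine ⟨⟨l, hl⟩, Finset.mem_univ _, ?_⟩
    simp [hy]
  rw [hz, hcard, Polynomial.eval_finsetSum, Finset.sum_range_succ'] at hroot
  set ρ := ‖x l‖ with hρ
  have hρ0 : 0 ≤ ρ := norm_nonneg _
  have hes : ∀ j, 1 ≤ j → j ≤ N →
      ‖((Finset.univ : Finset S).val.map y).esymm j‖ ≤ R ^ j * q := by
    intro j h1 h2
    rw [← MvPolynomial.aeval_esymm_eq_multiset_esymm S ℂ]
    exact hb j h1 (h2.trans hS)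
  have he0 : ((Finset.univ : Finset S).val.map y).esymm 0 = 1 := by
    rw [← MvPolynomial.aeval_esymm_eq_multiset_esymm S ℂ, MvPolynomial.esymm_zero, map_one]
  have hmain : ρ ^ N ≤ ∑ j ∈ Finset.range N, R ^ (j + 1) * q * ρ ^ (N - (j + 1)) := by
    have e0 : (x l) ^ N = - ∑ j ∈ Finset.range N, Polynomial.eval (x l)
        ((-1) ^ (j + 1) * (Polynomial.C (((Finset.univ : Finset S).val.map y).esymm (j + 1)) *
          Polynomial.X ^ (N - (j + 1)))) := by
      rw [he0] at hroot
      simp only [pow_zero, Polynomial.C_1, one_mul, Nat.sub_zero, Polynomial.eval_pow,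
        Polynomial.eval_X] at hroot
      linear_combination -hroot
    rw [hρ, ← norm_pow, e0, norm_neg]
    refine (norm_sum_le _ _).trans ?_
    apply Finset.sum_le_sum
    intro j hj
    rw [Finset.mem_range] at hj
    have h1 := hes (j + 1) (by omega) (by omega)
    rw [Polynomial.eval_mul, Polynomial.eval_mul, Polynomial.eval_pow, Polynomial.eval_neg,
      Polynomial.eval_one, Polynomial.eval_C, Polynomial.eval_pow, Polynomial.eval_X, norm_mul,
      norm_mul, norm_pow, norm_neg, norm_one, one_pow, one_mul, norm_pow]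
    gcongr
  have hm1 : (1 : ℝ) ≤ m := by exact_mod_cast hm
  have hNm : (N : ℝ) ≤ m := by exact_mod_cast hS
  have hN0 : (0 : ℝ) < N := by exact_mod_cast hN1
  have hm0 : (0 : ℝ) < m := by linarith
  have hqq : q ≤ q ^ (1 / (m : ℝ)) := by
    rcases hq.eq_or_lt with h | h
    · rw [← h]; positivity
    · calc q = q ^ (1 : ℝ) := (Real.rpow_one q).symm
        _ ≤ q ^ (1 / (m : ℝ)) := by
          apply Real.rpow_le_rpow_of_exponent_ge h hq1
          rw [div_le_one hm0]; exact hm1
  have hqN : q ^ (1 / (N : ℝ)) ≤ q ^ (1 / (m : ℝ)) := by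
    rcases hq.eq_or_lt with h | h
    · rw [← h, Real.zero_rpow (by positivity), Real.zero_rpow (by positivity)]
    · apply Real.rpow_le_rpow_of_exponent_ge h hq1
      exact one_div_le_one_div_of_le hN0 hNm
  rcases le_or_gt ρ R with hle | hgt
  · -- ρ ≤ R
    have h1 : ρ ^ N ≤ N * (R ^ N * q) := by
      refine hmain.trans ?_
      have : ∀ j ∈ Finset.range N, R ^ (j + 1) * q * ρ ^ (N - (j + 1)) ≤ R ^ N * q := by
        intro j hj
        rw [Finset.mem_range] at hj
        calc R ^ (j + 1) * q * ρ ^ (N - (j + 1)) ≤ R ^ (j + 1) * q * R ^ (N - (j + 1)) := by gcongr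
          _ = R ^ (j + 1 + (N - (j + 1))) * q := by rw [pow_add]; ring
          _ = R ^ N * q := by congr 2; omega
      refine (Finset.sum_le_card_nsmul _ _ _ this).trans ?_
      rw [Finset.card_range, nsmul_eq_mul]
    have h2 : ρ ^ N ≤ (N * R * q ^ (1 / (N : ℝ))) ^ N := by
      rw [mul_pow, mul_pow, ← Real.rpow_natCast (q ^ (1 / (N : ℝ))) N, ← Real.rpow_mul hq,
        one_div_mul_cancel hN0.ne', Real.rpow_one]
      calc ρ ^ N ≤ N * (R ^ N * q) := h1
        _ ≤ (N : ℝ) ^ N * (R ^ N * q) := by
          apply mul_le_mul_of_nonneg_right _ (by positivity)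
          calc (N : ℝ) = (N : ℝ) ^ 1 := (pow_one _).symm
            _ ≤ (N : ℝ) ^ N := pow_le_pow_right₀ (by exact_mod_cast hN1) hN1
        _ = (N : ℝ) ^ N * R ^ N * q := by ring
    have h3 := le_of_pow_le_pow_left₀ (by omega) (by positivity) h2
    calc ρ ≤ N * R * q ^ (1 / (N : ℝ)) := h3
      _ ≤ m * R * q ^ (1 / (m : ℝ)) := by gcongr
  · -- ρ > R
    have hρp : 0 < ρ := by linarith
    have h1 : ρ ^ N ≤ N * (R * q * ρ ^ (N - 1)) := by
      refine hmain.trans ?_
      have : ∀ j ∈ Finset.range N, R ^ (j + 1) * q * ρ ^ (N - (j + 1)) ≤ R * q * ρ ^ (N - 1) := by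
        intro j hj
        rw [Finset.mem_range] at hj
        calc R ^ (j + 1) * q * ρ ^ (N - (j + 1)) = R * R ^ j * q * ρ ^ (N - (j + 1)) := by
              rw [pow_succ]; ring
          _ ≤ R * ρ ^ j * q * ρ ^ (N - (j + 1)) := by gcongr
          _ = R * q * ρ ^ (j + (N - (j + 1))) := by rw [pow_add]; ring
          _ = R * q * ρ ^ (N - 1) := by congr 2; omega
      refine (Finset.sum_le_card_nsmul _ _ _ this).trans ?_
      rw [Finset.card_range, nsmul_eq_mul]
    have h2 : ρ * ρ ^ (N - 1) ≤ (N * (R * q)) * ρ ^ (N - 1) := by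
      calc ρ * ρ ^ (N - 1) = ρ ^ N := by rw [mul_comm, ← pow_succ]; congr 1; omega
        _ ≤ N * (R * q * ρ ^ (N - 1)) := h1
        _ = _ := by ring
    have h3 := le_of_mul_le_mul_right h2 (by positivity)
    calc ρ ≤ N * (R * q) := h3
      _ ≤ m * (R * q ^ (1 / (m : ℝ))) := by gcongr
      _ = m * R * q ^ (1 / (m : ℝ)) := by ring

end Pool.Agent.H54.VG
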