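import Pool.Agent.H95.VG.Targets3

/-!
# VG, module OCC: occupied levels
-/

set_option autoImplicit false

namespace Pool.Agent.H54.VG

open Set Pool.Agent.H95.VG

/-- OCC: the combinatorics of the occupied levels. -/
theorem occ : T_OCC := by
  intro O S L m hL hS hsub hwin
  -- going down
  have hdown : ∀ s ∈ O, ∀ k : ℕ, s - k * L ∈ O := by
    intro s hs k
    induction k with
    | zero => simpa using hs
    | succ k ih =>
      have := hsub _ ih
      have e : s - (k + 1 : ℕ) * L = s - k * L - L := by push_cast; ring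
      rw [e]; exact this
  -- tops
  set Top : Set ℝ := {t | t ∈ O ∧ ∀ k : ℕ, 1 ≤ k → t + k * L ∉ O} with hTop
  have hex : ∀ s ∈ O, ∃ k : ℕ, s + k * L ∈ Top := by
    intro s hs
    obtain ⟨B, hB⟩ := exists_nat_gt ((-S - s) / L)
    have hbd : ∀ k : ℕ, s + k * L ∈ O → k ≤ B := by
      intro k hk
      have h1 := hS _ hk
      by_contra hc
      push Not at hc
      have h2 : (B : ℝ) < k := by exact_mod_cast hc
      rw [div_lt_iff₀ hL] at hB
      nlinarith
    classical
    have h0 : ∃ k ≤ B, s + k * L ∈ O := ⟨0, Nat.zero_le _, by simpa using hs⟩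
    set k := Nat.findGreatest (fun k => s + k * L ∈ O) B with hk
    have hkO : s + k * L ∈ O := by
      obtain ⟨k0, hk0, hk0O⟩ := h0
      exact Nat.findGreatest_spec (P := fun k : ℕ => s + k * L ∈ O) hk0 hk0O
    refine ⟨k, hkO, ?_⟩
    intro j hj hjO
    have e : s + k * L + j * L = s + ((k + j : ℕ) : ℝ) * L := by push_cast; ring
    rw [e] at hjO
    have h3 := hbd _ hjO
    have h4 := Nat.le_findGreatest (P := fun k : ℕ => s + k * L ∈ O) h3 hjO
    omega
  have hcard : ∀ T : Finset ℝ, ↑T ⊆ Top → T.card ≤ m := by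
    intro T hT
    rcases T.eq_empty_or_nonempty with rfl | hne
    · simp
    obtain ⟨σ, hσT, hσ⟩ := T.exists_min_image id hne
    simp only [id] at hσ
    classical
    have key : (T.image (fun t => t - (⌊(t - σ) / L⌋₊ : ℝ) * L)).card = T.card := by
      apply Finset.card_image_of_injOn
      intro t ht t' ht' hEq
      have ht1 := hT ht
      have ht2 := hT ht'
      simp only at hEq
      set a := ⌊(t - σ) / L⌋₊
      set b := ⌊(t' - σ) / L⌋₊
      rcases lt_trichotomy a b with h | h | h
      · exfalso
        apply ht1.2 (b - a) (by omega)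
        have e : t + ((b - a : ℕ) : ℝ) * L = t' := by
          rw [Nat.cast_sub h.le]
          linear_combination hEq
        rw [e]
        exact ht2.1
      · rw [h] at hEq
        linarith
      · exfalso
        apply ht2.2 (a - b) (by omega)
        have e : t' + ((a - b : ℕ) : ℝ) * L = t := by
          rw [Nat.cast_sub h.le]
          linear_combination -hEq
        rw [e]
        exact ht1.1
    rw [← key]
    apply hwin σ
    intro x hx
    rw [Finset.coe_image] at hx
    obtain ⟨t, ht, rfl⟩ := hx
    have h0 : 0 ≤ (t - σ) / L := div_nonneg (by linarith [hσ t ht]) hL.le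
    have h1 := Nat.floor_le h0
    have h2 := Nat.lt_floor_add_one ((t - σ) / L)
    rw [le_div_iff₀ hL] at h1
    rw [div_lt_iff₀ hL] at h2
    refine ⟨hdown _ (hT ht).1 _, ?_, ?_⟩
    · simp only; linarith
    · simp only; linarith
  have hfin : Top.Finite := by
    by_contra hinf
    obtain ⟨T, hT, hc⟩ := (show Top.Infinite from hinf).exists_subset_card_eq (m + 1)
    have := hcard T hT
    omega
  obtain ⟨σ₀, hσ₀⟩ := hfin.bddBelow
  refine ⟨σ₀, ?_⟩
  intro s hs
  obtain ⟨k, hk⟩ := hex s hs
  exact ⟨k, hk.1, hσ₀ hk⟩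

end Pool.Agent.H54.VG
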