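import Pool.Agent.H54.VG.SCW

/-!
# VG, module SCH: Schwarz estimate for the correspondences
-/

set_option autoImplicit false

namespace Pool.Agent.H54.VG

open Set MeasureTheory Pool.Agent.H95.VG

/-- `T_NEW` for finite sets in any type -/
theorem new_fin (hN : T_NEW) (m : ℕ) (hm : 1 ≤ m) : ∃ C : ℝ, 0 < C ∧
    ∀ (β : Type) (T : Finset β) (x : β → ℂ) (R q : ℝ), T.card ≤ m → 0 ≤ R → 0 ≤ q → q ≤ 1 →
    (∀ j, 1 ≤ j → j ≤ m → ‖∑ l ∈ T, x l ^ j‖ ≤ R ^ j * q) →
    ∀ l ∈ T, ‖x l‖ ≤ C * R * q ^ (1 / (m : ℝ)) := by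
  obtain ⟨C, hC, h⟩ := hN m hm
  refine ⟨C, hC, ?_⟩
  intro β T x R q hT hR hq hq1 hp l hl
  classical
  set e := T.equivFin with he
  set y : ℕ → ℂ := fun k => if hk : k < T.card then x (e.symm ⟨k, hk⟩) else 0 with hy
  have hsum : ∀ j, ∑ k ∈ Finset.range T.card, y k ^ j = ∑ l ∈ T, x l ^ j := by
    intro j
    rw [Finset.sum_range, ← Finset.sum_coe_sort T (fun l => x l ^ j), ← Equiv.sum_comp e.symm]
    apply Finset.sum_congr rfl
    intro k _
    simp only [hy, Fin.is_lt, dif_pos, Fin.eta]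
  have h1 := h (Finset.range T.card) y R q (by rw [Finset.card_range]; exact hT) hR hq hq1
    (fun j h1 h2 => by rw [hsum]; exact hp j h1 h2) (e ⟨l, hl⟩) (by simp)
  have h2 : y (e ⟨l, hl⟩) = x l := by
    simp only [hy, Fin.is_lt, dif_pos, Fin.eta, Equiv.symm_apply_apply]
  rwa [h2] at h1

theorem one_le_of_meas {n : ℕ} {I : Set (V n)} (h : volume (Dq n I) ≠ 0) : 1 ≤ n := by
  rcases Nat.eq_zero_or_pos n with rfl | hn
  · exfalso
    apply h
    have : Dq 0 I = ∅ := by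
      apply Set.eq_empty_of_forall_notMem
      rintro z ⟨⟨hz, _⟩, _⟩
      have h1 : 0 < nsq z := hz.1
      simp [nsq] at h1
    rw [this, measure_empty]
  · exact hn

theorem Dq_ae {n : ℕ} {I : Set (V n)} (hn : 1 ≤ n) (h : volume (Dp n ∩ I) = 0) :
    Dq n I =ᵐ[volume] {z : V n | nsq z < 1 / 4} := by
  have h0 : volume ({0} : Set (V n)) = 0 := by
    haveI : Nonempty (Fin n) := ⟨⟨0, hn⟩⟩
    exact measure_singleton 0
  have h1 : ∀ᵐ z : V n, z ≠ 0 := by
    rw [ae_iff]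
    simpa using h0
  have h2 : ∀ᵐ z : V n, z ∉ Dp n ∩ I := by
    rw [ae_iff]
    simpa using h
  filter_upwards [h1, h2] with z hz1 hz2
  apply propext
  constructor
  · intro hz
    exact hz.2
  · intro hz
    have hz' : nsq z < 1 / 4 := hz
    have h3 : 0 < nsq z := lt_of_le_of_ne (nsq_nonneg z) (fun h => hz1 (nsq_eq_zero h.symm))
    have h4 : z ∈ Dp n := ⟨h3, by linarith⟩
    exact ⟨⟨h4, fun hI => hz2 ⟨h4, hI⟩⟩, hz'⟩

theorem restrict_Dq {n : ℕ} {I : Set (V n)} (hn : 1 ≤ n) (h : volume (Dp n ∩ I) = 0) :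
    volume.restrict (Dq n I) = volume.restrict {z : V n | nsq z < 1 / 4} :=
  Measure.restrict_congr_set (Dq_ae hn h)

/-- SCH: Schwarz estimate for the correspondences. -/
theorem sch (hN : T_NEW) (hS : T_SCW) : T_SCH := by
  intro n X f I η L₀ m₀ N hc
  have hn := one_le_of_meas hc.meas
  obtain ⟨C0, hC0, hnew⟩ := new_fin hN m₀ hc.pos.2
  have hm1 : (1 : ℝ) ≤ m₀ := by exact_mod_cast hc.pos.2
  refine ⟨max 1 (C0 * m₀), le_max_left _ _, ?_⟩
  intro L R hL hR hbd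
  choose P hPd hP0 hPe using fun (i : Fin n) (j : ℕ) (hj : 1 ≤ j) => hc.hol L hL i j hj
  have hcard := hc.card L hL
  -- bound of the power sums
  have hPb : ∀ (i : Fin n) (j : ℕ) (hj : 1 ≤ j), ∀ y, nsq y < 1 / 4 →
      ‖P i j hj y‖ ≤ m₀ * R ^ j * (2 * Real.sqrt (nsq y)) := by
    intro i j hj
    apply hS n (P i j hj) (m₀ * R ^ j) (hPd i j hj) (hP0 i j hj) (by positivity)
    rw [← restrict_Dq hn hc.inull]
    filter_upwards [hcard, hPe i j hj, hbd] with y h1 h2 h3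
    have hfin : (FL f I η L y).Finite := by
      apply Set.finite_of_encard_eq_coe h1
    have hc2 : hfin.toFinset.card = N L := by
      rw [hfin.encard_eq_coe_toFinset_card] at h1
      exact_mod_cast h1
    rw [h2, finsum_mem_eq_finite_toFinset_sum _ hfin]
    refine (norm_sum_le _ _).trans ?_
    have h4 : ∀ z ∈ hfin.toFinset, ‖z i ^ j‖ ≤ R ^ j := by
      intro z hz
      rw [Set.Finite.mem_toFinset] at hz
      rw [norm_pow]
      have := (norm_le_pi_norm z i).trans (h3 z hz)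
      gcongr
    refine (Finset.sum_le_card_nsmul _ _ _ h4).trans ?_
    rw [nsmul_eq_mul, hc2]
    have h5 : (N L : ℝ) ≤ m₀ := by exact_mod_cast hc.le L hL
    gcongr
  have hall : ∀ᵐ y ∂(volume.restrict (Dq n I)), ∀ (i : Fin n) (j : Fin m₀),
      P i (j + 1) (Nat.succ_pos _) y = ∑ᶠ z ∈ FL f I η L y, (z i) ^ ((j : ℕ) + 1) := by
    rw [ae_all_iff]
    intro i
    rw [ae_all_iff]
    intro j
    exact hPe i (j + 1) (Nat.succ_pos _)
  have hmem : ∀ᵐ y ∂(volume.restrict (Dq n I)), nsq y < 1 / 4 := by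
    rw [restrict_Dq hn hc.inull]
    exact ae_restrict_mem (isOpen_nsq_lt _).measurableSet
  filter_upwards [hcard, hall, hmem] with y h1 h2 h3
  intro z hz
  have hfin : (FL f I η L y).Finite := Set.finite_of_encard_eq_coe h1
  have hc2 : hfin.toFinset.card = N L := by
    rw [hfin.encard_eq_coe_toFinset_card] at h1
    exact_mod_cast h1
  set q := 2 * Real.sqrt (nsq y) with hq
  have hq0 : 0 ≤ q := by positivity
  have hq1 : q ≤ 1 := by
    have h4 : Real.sqrt (nsq y) ≤ 1 / 2 := by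
      rw [Real.sqrt_le_left (by norm_num)]
      linarith
    linarith
  have hi : ∀ i, ‖z i‖ ≤ C0 * (m₀ * R) * q ^ (1 / (m₀ : ℝ)) := by
    intro i
    apply hnew (V n) hfin.toFinset (fun z => z i) (m₀ * R) q (by rw [hc2]; exact hc.le L hL)
      (by positivity) hq0 hq1
    · intro j hj1 hj2
      obtain ⟨j', rfl⟩ : ∃ j', j = j' + 1 := ⟨j - 1, by omega⟩
      have h5 := h2 i ⟨j', by omega⟩
      simp only at h5
      rw [finsum_mem_eq_finite_toFinset_sum _ hfin] at h5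
      rw [← h5]
      refine (hPb i (j' + 1) _ y h3).trans ?_
      have h6 : (m₀ : ℝ) ≤ (m₀ : ℝ) ^ (j' + 1) := by
        calc (m₀ : ℝ) = (m₀ : ℝ) ^ 1 := (pow_one _).symm
          _ ≤ (m₀ : ℝ) ^ (j' + 1) := pow_le_pow_right₀ hm1 hj1
      rw [mul_pow]
      gcongr
    · rw [Set.Finite.mem_toFinset]
      exact hz
  rw [pi_norm_le_iff_of_nonneg (by positivity)]
  intro i
  refine (hi i).trans ?_
  calc C0 * (m₀ * R) * q ^ (1 / (m₀ : ℝ)) = (C0 * m₀) * R * q ^ (1 / (m₀ : ℝ)) := by ring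
    _ ≤ max 1 (C0 * m₀) * R * q ^ (1 / (m₀ : ℝ)) := by
      have := le_max_right 1 (C0 * (m₀ : ℝ))
      gcongr

end Pool.Agent.H54.VG
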