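import Pool.Agent.H54.VG.SCW
import Pool.Agent.H95.VG.Targets2

/-!
# VG, module SGL: Siegel lemma
-/

set_option autoImplicit false

namespace Pool.Agent.H54.VG

open Set MeasureTheory Pool.Agent.H95.VG

/-- the exponent vector -/
noncomputable def ev {n d : ℕ} (e : Fin n → Fin (d + 1)) : Fin n →₀ ℕ :=
  Finsupp.equivFunOnFinite.symm (fun i => (e i : ℕ))

theorem ev_injective {n d : ℕ} : Function.Injective (ev : (Fin n → Fin (d + 1)) → _) := by
  intro e e' h
  funext i
  have := DFunLike.congr_fun h i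
  exact Fin.ext this

/-- the polynomial with given coefficients -/
noncomputable def pol {n d : ℕ} : ((Fin n → Fin (d + 1)) → ℂ) →ₗ[ℂ] MvPolynomial (Fin n) ℂ :=
  Fintype.linearCombination ℂ (fun e => MvPolynomial.monomial (ev e) (1 : ℂ))

theorem pol_apply {n d : ℕ} (c : (Fin n → Fin (d + 1)) → ℂ) :
    pol c = ∑ e, MvPolynomial.monomial (ev e) (c e) := by
  unfold pol
  rw [Fintype.linearCombination_apply]
  apply Finset.sum_congr rfl
  intro e _
  rw [MvPolynomial.smul_monomial, smul_eq_mul, mul_one]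

theorem pol_coeff {n d : ℕ} (c : (Fin n → Fin (d + 1)) → ℂ) (e : Fin n → Fin (d + 1)) :
    MvPolynomial.coeff (ev e) (pol c) = c e := by
  classical
  rw [pol_apply, MvPolynomial.coeff_sum, Finset.sum_eq_single e]
  · rw [MvPolynomial.coeff_monomial, if_pos rfl]
  · intro e' _ h
    rw [MvPolynomial.coeff_monomial, if_neg (fun h' => h (ev_injective h'))]
  · intro h; exact absurd (Finset.mem_univ _) h

theorem pol_deg {n d : ℕ} (c : (Fin n → Fin (d + 1)) → ℂ) : (pol c).totalDegree ≤ n * d := by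
  rw [pol_apply]
  apply MvPolynomial.totalDegree_finsetSum_le
  intro e _
  refine (MvPolynomial.totalDegree_monomial_le _ _).trans ?_
  rw [Finsupp.sum_fintype _ _ (fun _ => rfl)]
  calc ∑ i, ev e i ≤ ∑ _i : Fin n, d := by
        apply Finset.sum_le_sum
        intro i _
        exact Nat.lt_succ_iff.1 (e i).2
    _ = n * d := by simp

/-- a nonzero polynomial is not identically zero on the unit ball -/
theorem exists_ne {n : ℕ} (P : MvPolynomial (Fin n) ℂ) (hP : P ≠ 0) :
    ∃ z : V n, nsq z ≤ 1 ∧ MvPolynomial.eval z P ≠ 0 := by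
  by_contra hc
  push Not at hc
  apply hP
  have hinf : (Metric.closedBall (0 : ℂ) (1 / ((n : ℝ) + 1))).Infinite := by
    apply infinite_of_mem_nhds (0 : ℂ)
    exact Metric.closedBall_mem_nhds _ (by positivity)
  apply MvPolynomial.funext_set (fun _ => Metric.closedBall (0 : ℂ) (1 / ((n : ℝ) + 1)))
    (fun _ => hinf)
  intro z hz
  rw [map_zero]
  apply hc
  have hn0 : (0 : ℝ) < (n : ℝ) + 1 := by positivity
  have h1 : ∀ i, ‖z i‖ ^ 2 ≤ (1 / ((n : ℝ) + 1)) ^ 2 := by
    intro i
    have := hz i (Set.mem_univ _)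
    rw [mem_closedBall_zero_iff] at this
    gcongr
  calc nsq z ≤ ∑ _i : Fin n, (1 / ((n : ℝ) + 1)) ^ 2 := Finset.sum_le_sum fun i _ => h1 i
    _ = n * (1 / ((n : ℝ) + 1)) ^ 2 := by simp
    _ ≤ 1 := by
      rw [div_pow, one_pow, mul_one_div, div_le_one (by positivity)]
      nlinarith [Nat.cast_nonneg (α := ℝ) n]

theorem isCompact_ball1 (n : ℕ) : IsCompact {z : V n | nsq z ≤ 1} := by
  apply Metric.isCompact_of_isClosed_isBounded
  · exact isClosed_le continuous_nsq continuous_const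
  · rw [Metric.isBounded_iff_subset_closedBall 0]
    refine ⟨1, ?_⟩
    intro z hz
    rw [mem_closedBall_zero_iff, pi_norm_le_iff_of_nonneg zero_le_one]
    intro i
    have h1 : ‖z i‖ ^ 2 ≤ nsq z :=
      Finset.single_le_sum (f := fun i => ‖z i‖ ^ 2) (fun _ _ => by positivity) (Finset.mem_univ i)
    have h2 : nsq z ≤ 1 := hz
    nlinarith [norm_nonneg (z i)]

/-- SGL: polynomials vanishing at given points. -/
theorem sgl : T_SGL := by
  intro n d S _ hS
  classical
  set Φ : ((Fin n → Fin (d + 1)) → ℂ) →ₗ[ℂ] (S → ℂ) :=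
    LinearMap.pi (fun s : S => (MvPolynomial.aeval (s : V n)).toLinearMap.comp pol) with hΦ
  have hdim : Module.finrank ℂ (S → ℂ) < Module.finrank ℂ ((Fin n → Fin (d + 1)) → ℂ) := by
    rw [Module.finrank_fintype_fun_eq_card, Module.finrank_fintype_fun_eq_card, Fintype.card_coe,
      Fintype.card_fun, Fintype.card_fin, Fintype.card_fin]
    exact hS
  have hker := LinearMap.ker_ne_bot_of_finrank_lt (f := Φ) hdim
  obtain ⟨c, hc, hc0⟩ := (Submodule.ne_bot_iff _).1 hker
  have hev : ∀ s ∈ S, MvPolynomial.eval s (pol c) = 0 := by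
    intro s hs
    have h1 := congrFun (LinearMap.mem_ker.1 hc) ⟨s, hs⟩
    simpa [hΦ, MvPolynomial.aeval_def, MvPolynomial.eval₂_eq_eval_map] using h1
  have hP0 : pol c ≠ 0 := by
    intro h
    apply hc0
    funext e
    rw [← pol_coeff c e, h, MvPolynomial.coeff_zero]
    rfl
  obtain ⟨z₀, hz₀, hz₀P⟩ := exists_ne _ hP0
  have hcont : Continuous fun z : V n => ‖MvPolynomial.eval z (pol c)‖ :=
    (MvPolynomial.continuous_eval (pol c)).norm
  obtain ⟨z₁, hz₁, hmax⟩ := (isCompact_ball1 n).exists_isMaxOn ⟨z₀, hz₀⟩ hcont.continuousOn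
  set M := ‖MvPolynomial.eval z₁ (pol c)‖ with hM
  have hM0 : 0 < M := lt_of_lt_of_le (norm_pos_iff.2 hz₀P) (hmax hz₀)
  refine ⟨MvPolynomial.C ((M : ℂ)⁻¹) * pol c, ?_, ⟨?_, z₁, hz₁, ?_⟩, ?_⟩
  · refine (MvPolynomial.totalDegree_mul _ _).trans ?_
    rw [MvPolynomial.totalDegree_C, zero_add]
    exact pol_deg c
  · intro z hz
    rw [map_mul, MvPolynomial.eval_C, norm_mul, norm_inv, Complex.norm_real, Real.norm_eq_abs,
      abs_of_pos hM0, inv_mul_le_iff₀ hM0, mul_one]
    exact hmax hz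
  · rw [map_mul, MvPolynomial.eval_C, norm_mul, norm_inv, Complex.norm_real, Real.norm_eq_abs,
      abs_of_pos hM0, ← hM, inv_mul_cancel₀ hM0.ne']
  · intro s hs
    rw [map_mul, hev s hs, mul_zero]

end Pool.Agent.H54.VG
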