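import Pool.Agent.H54.VG.SCW

/-!
# VG, module UPB: one sidedness and deep windows
-/

set_option autoImplicit false

open MeasureTheory Set Filter Topology
open scoped ENNReal NNReal ContDiff ComplexConjugate

namespace Pool.Agent.H54.VG

open Pool.Agent.H95.VG

/-! ### the smooth step -/

theorem st_deriv_zero {x : ℝ} (h : x < 0 ∨ 1 < x) : deriv Real.smoothTransition x = 0 ∧
    deriv (deriv Real.smoothTransition) x = 0 := by
  have key : ∀ (g : ℝ → ℝ) (c : ℝ) (x : ℝ), (∀ᶠ y in 𝓝 x, g y = c) → ∀ᶠ y in 𝓝 x, deriv g y = 0 := by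
    intro g c x h
    filter_upwards [h.eventually_nhds] with y hy
    have : g =ᶠ[𝓝 y] fun _ => c := hy
    rw [this.deriv_eq, deriv_const]
  have h1 : ∃ c : ℝ, ∀ᶠ y in 𝓝 x, Real.smoothTransition y = c := by
    rcases h with h | h
    · refine ⟨0, ?_⟩
      filter_upwards [isOpen_Iio.mem_nhds h] with y hy
      exact Real.smoothTransition.zero_of_nonpos (le_of_lt hy)
    · refine ⟨1, ?_⟩
      filter_upwards [isOpen_Ioi.mem_nhds h] with y hy
      exact Real.smoothTransition.one_of_one_le (le_of_lt hy)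
  obtain ⟨c, hc⟩ := h1
  have h2 := key _ c x hc
  have h3 := key _ 0 x h2
  exact ⟨h2.self_of_nhds, h3.self_of_nhds⟩

theorem st_contDiff : ContDiff ℝ ∞ Real.smoothTransition := Real.smoothTransition.contDiff

theorem st_bound : ∃ D : ℝ, 0 < D ∧ ∀ x, |deriv Real.smoothTransition x| ≤ D ∧
    |deriv (deriv Real.smoothTransition) x| ≤ D := by
  have hd1 : ContDiff ℝ ∞ (deriv Real.smoothTransition) := by
    have := (contDiff_infty_iff_deriv.1 st_contDiff).2
    exact this
  have hd2 : ContDiff ℝ ∞ (deriv (deriv Real.smoothTransition)) := by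
    have := (contDiff_infty_iff_deriv.1 hd1).2
    exact this
  obtain ⟨D1, hD1⟩ := isCompact_Icc.exists_bound_of_continuousOn (s := Icc (0 : ℝ) 1)
    hd1.continuous.continuousOn
  obtain ⟨D2, hD2⟩ := isCompact_Icc.exists_bound_of_continuousOn (s := Icc (0 : ℝ) 1)
    hd2.continuous.continuousOn
  refine ⟨max 1 (max D1 D2), by positivity, ?_⟩
  intro x
  by_cases hx : x ∈ Icc (0 : ℝ) 1
  · have h1 := hD1 x hx
    have h2 := hD2 x hx
    rw [Real.norm_eq_abs] at h1 h2
    exact ⟨h1.trans ((le_max_left _ _).trans (le_max_right _ _)),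
      h2.trans ((le_max_right _ _).trans (le_max_right _ _))⟩
  · have h3 : x < 0 ∨ 1 < x := by
      rw [mem_Icc, not_and_or] at hx
      push Not at hx
      exact hx
    rw [(st_deriv_zero h3).1, (st_deriv_zero h3).2, abs_zero]
    exact ⟨by positivity, by positivity⟩

/-- the step function with slope parameter `b` -/
theorem step_deriv (a b : ℝ) (u : ℝ) :
    deriv (fun u => Real.smoothTransition (a + b * u)) u = b * deriv Real.smoothTransition (a + b * u) ∧
    deriv (deriv (fun u => Real.smoothTransition (a + b * u))) u =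
      b ^ 2 * deriv (deriv Real.smoothTransition) (a + b * u) := by
  have hd1 : ContDiff ℝ ∞ (deriv Real.smoothTransition) := (contDiff_infty_iff_deriv.1 st_contDiff).2
  have h1 : ∀ u, deriv (fun u => Real.smoothTransition (a + b * u)) u =
      b * deriv Real.smoothTransition (a + b * u) := by
    intro u
    have hl : HasDerivAt (fun u : ℝ => a + b * u) b u := by
      simpa using ((hasDerivAt_id u).const_mul b).const_add a
    have hs : HasDerivAt Real.smoothTransition (deriv Real.smoothTransition (a + b * u))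
        (a + b * u) :=
      ((st_contDiff.differentiable (by simp)) _).hasDerivAt
    have := hs.comp u hl
    rw [mul_comm]
    exact this.deriv
  refine ⟨h1 u, ?_⟩
  have h2 : deriv (fun u => Real.smoothTransition (a + b * u)) =
      fun u => b * deriv Real.smoothTransition (a + b * u) := funext h1
  rw [h2]
  have hl : HasDerivAt (fun u : ℝ => a + b * u) b u := by
    simpa using ((hasDerivAt_id u).const_mul b).const_add a
  have hs : HasDerivAt (deriv Real.smoothTransition)
      (deriv (deriv Real.smoothTransition) (a + b * u)) (a + b * u) :=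
    ((hd1.differentiable (by simp)) _).hasDerivAt
  have h2' := hs.comp u hl
  have h3 := h2'.const_mul b
  rw [show (fun u => b * deriv Real.smoothTransition (a + b * u)) =
    fun y => b * (deriv Real.smoothTransition ∘ fun u => a + b * u) y from rfl, h3.deriv]
  ring

/-! ### the cutoff `chi` -/

theorem chi_nonneg {n : ℕ} (z : V n) : 0 ≤ chi z := Real.smoothTransition.nonneg _

theorem chi_le_one {n : ℕ} (z : V n) : chi z ≤ 1 := Real.smoothTransition.le_one _

theorem chi_zero {n : ℕ} {z : V n} (h : 1 / 2 ≤ nsq z) : chi z = 0 :=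
  Real.smoothTransition.zero_of_nonpos (by linarith)

theorem lev_of_const {n : ℕ} {g : V n → ℝ} {z : V n} {c : ℝ} (h : ∀ᶠ y in 𝓝 z, g y = c) (v : V n) :
    lev g z v = 0 := by
  have key : ∀ v : V n, (fun x => fderiv ℝ g x v) =ᶠ[𝓝 z] fun _ => (0 : ℝ) := by
    intro v
    filter_upwards [h.eventually_nhds] with y hy
    have h1 : g =ᶠ[𝓝 y] fun _ => c := hy
    rw [h1.fderiv_eq, fderiv_const_apply]
    rfl
  unfold lev
  rw [(key v).fderiv_eq, (key (Complex.I • v)).fderiv_eq, fderiv_const_apply]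
  simp

theorem LL_chi {n : ℕ} {X : Type} [TopologicalSpace X] {ι : Type} [Fintype ι] (A : Atl n X ι)
    (w : ι → V n → ℝ) (f : V n → X) (z : V n) (h : LL A w f chi z ≠ 0) :
    1 / 4 ≤ nsq z ∧ nsq z ≤ 1 / 2 := by
  by_contra hc
  apply h
  have hconst : ∃ c : ℝ, ∀ᶠ y in 𝓝 z, chi y = c := by
    rw [not_and_or] at hc
    rcases hc with hc | hc
    · push Not at hc
      refine ⟨1, ?_⟩
      filter_upwards [(isOpen_nsq_lt (1 / 4)).mem_nhds hc] with y hy
      have hy' : nsq y < 1 / 4 := hy
      exact Real.smoothTransition.one_of_one_le (by linarith)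
    · push Not at hc
      refine ⟨0, ?_⟩
      filter_upwards [(isOpen_lt continuous_const continuous_nsq).mem_nhds hc] with y hy
      have hy' : 1 / 2 < nsq y := hy
      exact chi_zero hy'.le
  obtain ⟨c, hcst⟩ := hconst
  unfold LL
  apply Finset.sum_eq_zero
  intro a _
  rw [Finset.sum_eq_zero, mul_zero]
  intro k _
  exact lev_of_const hcst _

theorem PB_nonneg {n : ℕ} {X : Type} [TopologicalSpace X] {ι : Type} [Fintype ι] {A : Atl n X ι}
    {w : ι → V n → ℝ} (hw : Gau A w) (f : V n → X) (z : V n) : 0 ≤ PB A f w z := by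
  unfold PB
  apply Finset.sum_nonneg
  intro a _
  apply mul_nonneg _ (by positivity)
  unfold Wt
  apply Set.indicator_nonneg
  intro x _
  exact hw.nonneg a _

theorem shell_compact (n : ℕ) : IsCompact {z : V n | 1 / 4 ≤ nsq z ∧ nsq z ≤ 1 / 2} := by
  apply Metric.isCompact_of_isClosed_isBounded
  · exact (isClosed_le continuous_const continuous_nsq).inter
      (isClosed_le continuous_nsq continuous_const)
  · rw [Metric.isBounded_iff_subset_closedBall 0]
    refine ⟨1, ?_⟩
    intro z hz
    rw [mem_closedBall_zero_iff, pi_norm_le_iff_of_nonneg zero_le_one]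
    intro i
    have h1 : ‖z i‖ ^ 2 ≤ nsq z :=
      Finset.single_le_sum (f := fun i => ‖z i‖ ^ 2) (fun _ _ => by positivity) (Finset.mem_univ i)
    have h2 : nsq z ≤ 1 / 2 := hz.2
    nlinarith [norm_nonneg (z i)]

/-- UPB: one sidedness and deep windows. -/
theorem upb (hKBD : T_KBD) (hINN : T_INN) (hPFM : T_PFM) (hCON : T_CON) (hLVB : T_LVB)
    (hNUL : T_NUL) : T_UPB := by
  intro n X _ _ _ _ ι _ A w f I h η hw hf hh hη hkap hflux hwin hndg
  have hopen : IsOpen (Dp n \ I) := hf.opn
  -- first part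
  have hpartA : ∃ B : ℝ, ∀ z ∈ Dq n I, η z ≤ B := by
    obtain ⟨B₀, hB₀⟩ := hPFM n X ι A w f I h η hw hf hh hη hkap hwin
    obtain ⟨S₀, hS₀, hcon⟩ := hCON n X ι A w f I h η hw hf hh hη hwin
    obtain ⟨c, H, hc, hH, hlvb⟩ := hLVB n X ι A w f I h η hw hf hh hη
    set ν : Measure (V n) := volume.withDensity (fun z => ENNReal.ofReal (PB A f w z)) with hν
    set E : ℕ → Set (V n) := fun k => (Dp n \ I) ∩ {z | nsq z ≤ 1 / 2 ∧ B₀ ≤ η z ∧ (k : ℝ) ≤ η z}
      with hE
    have hmη : ∀ c : ℝ, MeasurableSet ((Dp n \ I) ∩ {z | c ≤ η z}) := by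
      intro c
      have h1 : IsOpen ((Dp n \ I) ∩ η ⁻¹' Iio c) := hη.cont.isOpen_inter_preimage hopen isOpen_Iio
      have h2 : (Dp n \ I) ∩ {z | c ≤ η z} = (Dp n \ I) \ ((Dp n \ I) ∩ η ⁻¹' Iio c) := by
        ext z
        simp only [mem_inter_iff, Set.mem_sdiff, mem_preimage, mem_Iio, Set.mem_ofPred_eq]
        constructor
        · rintro ⟨a, b⟩
          exact ⟨a, fun hh => absurd hh.2 (not_lt.2 b)⟩
        · rintro ⟨a, b⟩
          refine ⟨a, ?_⟩
          by_contra hcc
          exact b ⟨a, not_le.1 hcc⟩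
      rw [h2]
      exact hopen.measurableSet.diff h1.measurableSet
    have hmE : ∀ k, MeasurableSet (E k) := by
      intro k
      have h1 : MeasurableSet {z : V n | nsq z ≤ 1 / 2} :=
        (isClosed_le continuous_nsq continuous_const).measurableSet
      have h2 : E k = {z : V n | nsq z ≤ 1 / 2} ∩ (((Dp n \ I) ∩ {z | B₀ ≤ η z}) ∩
          ((Dp n \ I) ∩ {z | (k : ℝ) ≤ η z})) := by
        ext z
        simp only [hE, mem_inter_iff, Set.mem_ofPred_eq]
        tauto
      rw [h2]
      exact h1.inter ((hmη _).inter (hmη _))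
    have hanti : Antitone E := by
      intro k l hkl z hz
      exact ⟨hz.1, hz.2.1, hz.2.2.1, le_trans (by exact_mod_cast hkl) hz.2.2.2⟩
    have hfin : ν (E 0) ≠ ⊤ := by
      rw [hν, withDensity_apply _ (hmE 0)]
      refine ne_of_lt (lt_of_le_of_lt (lintegral_mono_set ?_) hB₀)
      intro z hz
      exact ⟨hz.1, hz.2.1, hz.2.2.1⟩
    have hlim := tendsto_measure_iInter_atTop (μ := ν) (s := E)
      (fun k => (hmE k).nullMeasurableSet) hanti ⟨0, hfin⟩
    have hemp : (⋂ k, E k) = ∅ := by
      apply Set.eq_empty_of_forall_notMem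
      intro z hz
      obtain ⟨k, hk⟩ := exists_nat_gt (η z)
      have := (Set.mem_iInter.1 hz k).2.2.2
      linarith
    rw [hemp, measure_empty] at hlim
    have hcc : (0 : ℝ≥0∞) < ENNReal.ofReal c := ENNReal.ofReal_pos.2 hc
    obtain ⟨k, hk⟩ := (hlim.eventually (gt_mem_nhds hcc)).exists
    -- levels above `B'` are empty
    set B' : ℝ := max S₀ (max B₀ k + (1 + H)) with hB'
    have hlev : ∀ (a : ι) (s : ℝ), B' ≤ s →
        ∀ᵐ y ∂(volume.restrict (Metric.ball (0 : V n) (3 / 2))), fib A f I h η a s y = ∅ := by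
      intro a s hs
      have hsS : S₀ ≤ s := (le_max_left _ _).trans hs
      have hs2 : max B₀ k + (1 + H) ≤ s := (le_max_right _ _).trans hs
      have hsB : B₀ ≤ s - (1 + H) := by linarith [le_max_left B₀ (k : ℝ)]
      have hsk : (k : ℝ) ≤ s - (1 + H) := by linarith [le_max_right B₀ (k : ℝ)]
      obtain ⟨⟨N, hN⟩, _⟩ := hcon a s (hsS.trans (le_abs_self s))
      have hN0 : N = 0 := by
        by_contra hne
        have h1 := hlvb a {s} (fun _ => N) s (by
            intro s' hs'
            rw [Finset.mem_singleton] at hs'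
            rw [hs', sub_self, abs_zero]
            norm_num) (by
            intro s' hs'
            rw [Finset.mem_singleton] at hs'
            rw [hs']
            filter_upwards [hN] with y hy
            rw [hy])
        have h2 : ENNReal.ofReal c ≤ ENNReal.ofReal (c * ∑ s' ∈ ({s} : Finset ℝ), (N : ℝ)) := by
          apply ENNReal.ofReal_le_ofReal
          rw [Finset.sum_singleton]
          have : (1 : ℝ) ≤ N := by exact_mod_cast Nat.one_le_iff_ne_zero.2 hne
          nlinarith
        have h3 : ∫⁻ z in (Dp n \ I) ∩ {z | nsq z < 1 / 4 ∧ |η z - s| ≤ 1 + H},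
            ENNReal.ofReal (PB A f w z) ≤ ν (E k) := by
          rw [hν, withDensity_apply _ (hmE k)]
          apply lintegral_mono_set
          rintro z ⟨hz1, hz2, hz3⟩
          rw [abs_le] at hz3
          exact ⟨hz1, by linarith, by linarith [hz3.1], by linarith [hz3.1]⟩
        exact absurd hk (not_lt.2 ((h2.trans h1).trans h3))
      filter_upwards [hN] with y hy
      rw [hN0] at hy
      rw [← Set.encard_eq_zero, hy]
      rfl
    refine ⟨B' + H, ?_⟩
    intro z₀ hz₀
    by_contra hcon2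
    push Not at hcon2
    obtain ⟨a, ha1, ha2⟩ := A.cover (f z₀)
    have hz₀D : z₀ ∈ Dp n \ I := hz₀.1
    have hfc : ContinuousAt f z₀ := hf.cont.continuousAt (hopen.mem_nhds hz₀D)
    have hφc : ContinuousAt (A.φ a) (f z₀) := (A.φ a).continuousAt ha1
    have hFc : ContinuousAt (FF A f a) z₀ := hφc.comp hfc
    have hOa : z₀ ∈ Oa A f I a := ⟨hz₀D, ha1, Metric.ball_subset_ball (by norm_num) ha2⟩
    have hloc := hη.loc a z₀ hOa
    set s := η z₀ - h a (FF A f a z₀) with hs
    have hsB : B' ≤ s := by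
      have h1 := hH a (FF A f a z₀) (by
        apply Metric.ball_subset_closedBall
        exact Metric.ball_subset_ball (by norm_num) ha2)
      have h2 := (abs_le.1 h1).2
      rw [hs]
      linarith
    have hnull := hlev a s hsB
    rw [ae_restrict_iff' Metric.isOpen_ball.measurableSet, ae_iff] at hnull
    have hpre := (hNUL n X ι A w f I hw hf hndg).2 a _ hnull
    have hmem : {y ∈ Dp n \ I | f y ∈ (A.φ a).source ∧ A.φ a (f y) ∈
        {a_1 | ¬(a_1 ∈ Metric.ball 0 (3 / 2) → fib A f I h η a s a_1 = ∅)}} ∈ 𝓝 z₀ := by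
      have e1 : ∀ᶠ z in 𝓝 z₀, z ∈ Dp n \ I := hopen.mem_nhds hz₀D
      have e2 : ∀ᶠ z in 𝓝 z₀, nsq z < 1 / 4 := (isOpen_nsq_lt (1 / 4)).mem_nhds hz₀.2
      have e3 : ∀ᶠ z in 𝓝 z₀, f z ∈ (A.φ a).source :=
        hfc.eventually ((A.φ a).open_source.mem_nhds ha1)
      have e4 : ∀ᶠ z in 𝓝 z₀, FF A f a z ∈ Metric.ball (0 : V n) (3 / 2) :=
        hFc.eventually (Metric.isOpen_ball.mem_nhds (Metric.ball_subset_ball (by norm_num) ha2))
      filter_upwards [e1, e2, e3, e4, hloc] with z h1 h2 h3 h4 h5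
      refine ⟨h1, h3, ?_⟩
      intro h6
      have h7 : z ∈ fib A f I h η a s (A.φ a (f z)) := by
        refine ⟨⟨h1, h2⟩, h3, rfl, ?_⟩
        have h8 : FF A f a z = A.φ a (f z) := rfl
        rw [h8] at h5
        linarith
      rw [h6 h4] at h7
      exact h7
    exact absurd hpre (Measure.measure_pos_of_mem_nhds _ hmem).ne'
  refine ⟨hpartA, ?_⟩
  obtain ⟨Ba, hBa⟩ := hpartA
  obtain ⟨Ip, Im, hIp, hIm, hsum, hinn⟩ := hINN n X ι A w f I h η hw hf hh hη hwin
  obtain ⟨_, _, _, Ck, hCk⟩ := hKBD n X ι A w h hw hh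
  have hCk' := hCk f I hf
  obtain ⟨K₀, hK₀⟩ := hf.s3 h η hh hη {z : V n | 1 / 4 ≤ nsq z ∧ nsq z ≤ 1 / 2} (by
    rintro z ⟨h1, h2⟩
    exact ⟨by linarith, by linarith⟩) (shell_compact n)
  obtain ⟨D, hD, hDb⟩ := st_bound
  -- upper bound of `η` on `nsq ≤ 1/2`
  have hηup : ∀ z ∈ Dp n \ I, nsq z ≤ 1 / 2 → η z ≤ max K₀ Ba := by
    intro z hz hz2
    rcases lt_or_ge (nsq z) (1 / 4) with h1 | h1
    · exact (hBa z ⟨hz, h1⟩).trans (le_max_right _ _)
    · exact ((le_abs_self _).trans (hK₀ z ⟨⟨h1, hz2⟩, hz.2⟩)).trans (le_max_left _ _)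
  have hIp0 : Ip = 0 := by
    set S : ℝ := max K₀ Ba + 1 with hS
    set θ : ℝ → ℝ := fun u => Real.smoothTransition (-S + 1 * u) with hθ
    have hθs : ContDiff ℝ ∞ θ := st_contDiff.comp (by fun_prop)
    have h1 := (hinn θ 0 1 (|S| + 1) hθs
      (fun s hs => by
        apply Real.smoothTransition.zero_of_nonpos
        have := neg_abs_le S
        linarith)
      (fun s hs => by
        apply Real.smoothTransition.one_of_one_le
        have := le_abs_self S
        linarith)).2
    have h2 : Inn A w f I h η θ = 0 := by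
      unfold Inn
      have h3 : ∀ z ∈ Dp n \ I, chi z * (deriv θ (η z) * PB A f (k1 w h) z
          + deriv (deriv θ) (η z) * PB A f (k2 w h) z) = 0 := by
        intro z hz
        rcases le_or_gt (1 / 2) (nsq z) with h4 | h4
        · rw [chi_zero h4, zero_mul]
        · have h5 := hηup z hz h4.le
          have h6 : -S + 1 * η z < 0 := by rw [hS]; linarith
          rw [hθ, (step_deriv (-S) 1 (η z)).1, (step_deriv (-S) 1 (η z)).2,
            (st_deriv_zero (Or.inl h6)).1, (st_deriv_zero (Or.inl h6)).2]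
          ring
      have h3' : ∀ z ∈ Dp n \ I, θ (η z) * LL A w f chi z = 0 := by
        intro z hz
        by_cases h4 : LL A w f chi z = 0
        · rw [h4, mul_zero]
        · have h5 := LL_chi A w f z h4
          have h6 := hηup z hz h5.2
          have h7 : -S + 1 * η z ≤ 0 := by rw [hS]; linarith
          rw [hθ]
          simp only
          rw [Real.smoothTransition.zero_of_nonpos h7, zero_mul]
      rw [setIntegral_eq_zero_of_forall_eq_zero h3, setIntegral_eq_zero_of_forall_eq_zero h3',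
        sub_zero]
    rw [h2] at h1
    linarith
  have hImf : Im = flux A w f I := by rw [← hsum, hIp0, zero_add]
  set M : ℝ := 2 * D * (|Ck| + 1) with hM
  have hM0 : 0 < M := by positivity
  refine ⟨flux A w f I / M, |K₀| + 2, by positivity, ?_⟩
  intro s hs
  set θ : ℝ → ℝ := fun u => Real.smoothTransition ((1 - s) / 2 + (-1 / 2) * u) with hθ
  have hθs : ContDiff ℝ ∞ θ := st_contDiff.comp (by fun_prop)
  have hs0 : 0 < s := by linarith [abs_nonneg K₀]
  have hsK : K₀ + 2 ≤ s := by linarith [le_abs_self K₀]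
  obtain ⟨h0, h1⟩ := hinn θ 1 0 (s + 1) hθs
      (fun u hu => by
        apply Real.smoothTransition.one_of_one_le
        linarith)
      (fun u hu => by
        apply Real.smoothTransition.zero_of_nonpos
        linarith)
  have hθd : ∀ u, ¬ |u + s| ≤ 1 → deriv θ u = 0 ∧ deriv (deriv θ) u = 0 := by
    intro u hu
    rw [abs_le, not_and_or] at hu
    push Not at hu
    have h2 : (1 - s) / 2 + (-1 / 2) * u < 0 ∨ 1 < (1 - s) / 2 + (-1 / 2) * u := by
      rcases hu with hu | hu
      · right; linarith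
      · left; linarith
    rw [hθ, (step_deriv ((1 - s) / 2) (-1 / 2) u).1, (step_deriv ((1 - s) / 2) (-1 / 2) u).2,
      (st_deriv_zero h2).1, (st_deriv_zero h2).2]
    simp
  have hθb : ∀ u, |deriv θ u| ≤ D ∧ |deriv (deriv θ) u| ≤ D := by
    intro u
    obtain ⟨h2, h3⟩ := hDb ((1 - s) / 2 + (-1 / 2) * u)
    rw [hθ, (step_deriv ((1 - s) / 2) (-1 / 2) u).1, (step_deriv ((1 - s) / 2) (-1 / 2) u).2,
      abs_mul, abs_mul]
    have e1 : |(-1 / 2 : ℝ)| = 1 / 2 := by rw [abs_of_neg (by norm_num)]; norm_num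
    have e2 : |(-1 / 2 : ℝ) ^ 2| = 1 / 4 := by rw [abs_of_pos (by norm_num)]; norm_num
    rw [e1, e2]
    have h4 := abs_nonneg (deriv Real.smoothTransition ((1 - s) / 2 + (-1 / 2) * u))
    have h5 := abs_nonneg (deriv (deriv Real.smoothTransition) ((1 - s) / 2 + (-1 / 2) * u))
    constructor
    · linarith
    · linarith
  set W : Set (V n) := (Dp n \ I) ∩ {z | nsq z < 1 / 4 ∧ |η z + s| ≤ 1} with hW
  set g : V n → ℝ := fun z => chi z * (deriv θ (η z) * PB A f (k1 w h) z
          + deriv (deriv θ) (η z) * PB A f (k2 w h) z) with hg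
  have hshell : ∀ z ∈ Dp n \ I, 1 / 4 ≤ nsq z → nsq z ≤ 1 / 2 → ¬ |η z + s| ≤ 1 := by
    intro z hz h2 h3 h4
    have h5 := (abs_le.1 (hK₀ z ⟨⟨h2, h3⟩, hz.2⟩)).1
    have h6 := (abs_le.1 h4).2
    linarith
  have hgb : ∀ z ∈ Dp n \ I, ‖g z‖ₑ ≤ W.indicator (fun z => ENNReal.ofReal (M * PB A f w z)) z := by
    intro z hz
    by_cases hzW : z ∈ W
    · rw [Set.indicator_of_mem hzW, Real.enorm_eq_ofReal_abs]
      apply ENNReal.ofReal_le_ofReal
      have hP := PB_nonneg hw f z
      obtain ⟨hk1, hk2⟩ := hCk' z hz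
      obtain ⟨hb1, hb2⟩ := hθb (η z)
      have hCk0 : Ck * PB A f w z ≤ (|Ck| + 1) * PB A f w z :=
        mul_le_mul_of_nonneg_right (by linarith [le_abs_self Ck]) hP
      rw [hg]
      simp only
      rw [abs_mul, abs_of_nonneg (chi_nonneg z)]
      calc chi z * |deriv θ (η z) * PB A f (k1 w h) z + deriv (deriv θ) (η z) * PB A f (k2 w h) z|
          ≤ 1 * (|deriv θ (η z)| * |PB A f (k1 w h) z| +
              |deriv (deriv θ) (η z)| * |PB A f (k2 w h) z|) := by
            apply mul_le_mul (chi_le_one z) _ (abs_nonneg _) zero_le_one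
            rw [← abs_mul, ← abs_mul]
            exact abs_add_le _ _
        _ ≤ 1 * (D * ((|Ck| + 1) * PB A f w z) + D * ((|Ck| + 1) * PB A f w z)) := by
            have i1 : |PB A f (k1 w h) z| ≤ (|Ck| + 1) * PB A f w z := hk1.trans hCk0
            have i2 : |PB A f (k2 w h) z| ≤ (|Ck| + 1) * PB A f w z := hk2.trans hCk0
            gcongr
        _ = M * PB A f w z := by rw [hM]; ring
    · rw [Set.indicator_of_notMem hzW]
      have hg0 : g z = 0 := by
        rw [hg]
        simp only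
        rcases le_or_gt (1 / 2) (nsq z) with h4 | h4
        · rw [chi_zero h4, zero_mul]
        · have h5 : ¬ |η z + s| ≤ 1 := by
            rcases lt_or_ge (nsq z) (1 / 4) with h6 | h6
            · intro h7
              exact hzW ⟨hz, h6, h7⟩
            · exact hshell z hz h6 h4.le
          rw [(hθd _ h5).1, (hθd _ h5).2]
          ring
      rw [hg0, enorm_zero]
  have hInn : Inn A w f I h η θ = ∫ z in Dp n \ I, g z := by
    unfold Inn
    have h3' : ∀ z ∈ Dp n \ I, θ (η z) * LL A w f chi z = 0 := by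
      intro z hz
      by_cases h4 : LL A w f chi z = 0
      · rw [h4, mul_zero]
      · have h5 := LL_chi A w f z h4
        have h6 := (abs_le.1 (hK₀ z ⟨h5, hz.2⟩)).1
        have h7 : (1 - s) / 2 + (-1 / 2) * η z ≤ 0 := by linarith
        rw [hθ]
        simp only
        rw [Real.smoothTransition.zero_of_nonpos h7, zero_mul]
    rw [setIntegral_eq_zero_of_forall_eq_zero h3', sub_zero]
  have hfl : flux A w f I = ∫ z in Dp n \ I, g z := by
    rw [← hInn, h1, hImf]
    ring
  have hWm : MeasurableSet W := by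
    have h2 : IsOpen ((Dp n \ I) ∩ η ⁻¹' {u | 1 < |u + s|}) :=
      hη.cont.isOpen_inter_preimage hopen (isOpen_lt continuous_const (by fun_prop))
    have h3 : W = ({z : V n | nsq z < 1 / 4} ∩ (Dp n \ I)) \ ((Dp n \ I) ∩ η ⁻¹' {u | 1 < |u + s|}) := by
      ext z
      simp only [hW, mem_inter_iff, Set.mem_sdiff, mem_preimage, Set.mem_ofPred_eq]
      constructor
      · rintro ⟨a, b, c⟩
        exact ⟨⟨b, a⟩, fun hh => absurd hh.2 (not_lt.2 c)⟩
      · rintro ⟨⟨b, a⟩, c⟩
        refine ⟨a, b, ?_⟩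
        by_contra hcc
        exact c ⟨a, not_le.1 hcc⟩
    rw [h3]
    exact ((isOpen_nsq_lt _).measurableSet.inter hopen.measurableSet).diff h2.measurableSet
  have hWsub : W ⊆ Dp n \ I := inter_subset_left
  have hmain : ENNReal.ofReal (flux A w f I) ≤
      ENNReal.ofReal M * ∫⁻ z in W, ENNReal.ofReal (PB A f w z) := by
    calc ENNReal.ofReal (flux A w f I) ≤ ‖∫ z in Dp n \ I, g z‖ₑ := by
          rw [← hfl, Real.enorm_eq_ofReal_abs]
          exact ENNReal.ofReal_le_ofReal (le_abs_self _)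
      _ ≤ ∫⁻ z in Dp n \ I, ‖g z‖ₑ := enorm_integral_le_lintegral_enorm _
      _ ≤ ∫⁻ z in Dp n \ I, W.indicator (fun z => ENNReal.ofReal (M * PB A f w z)) z :=
          setLIntegral_mono' hopen.measurableSet hgb
      _ = ∫⁻ z in W, ENNReal.ofReal (M * PB A f w z) := by
          rw [lintegral_indicator hWm, Measure.restrict_restrict hWm,
            Set.inter_eq_self_of_subset_left hWsub]
      _ = ENNReal.ofReal M * ∫⁻ z in W, ENNReal.ofReal (PB A f w z) := by
          rw [← lintegral_const_mul' _ _ ENNReal.ofReal_ne_top]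
          apply lintegral_congr
          intro z
          rw [ENNReal.ofReal_mul hM0.le]
  rw [ENNReal.ofReal_div_of_pos hM0]
  exact ENNReal.div_le_of_le_mul' hmain

end Pool.Agent.H54.VG
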